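import Mathlib

/-!
Project ILL: illumination of axis parallel segments.  Definitions and statements.
A *bar* is a segment parallel to the axis `ax`; a *system* is a family of bars in the square
`[-B, B]^2` each of whose ends lies on the boundary of the square or inside a perpendicular bar;
the *cells* are the rooms cut out by the bars.
-/

namespace Pool.Agent.P.MP_5f84aa_co

open Finset

abbrev Pt : Type := Fin 2 → ℝ

/-- the sign of a direction -/
def sg (b : Bool) : ℝ := if b then 1 else -1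

/-- the segment `{q | q ax.rev = pos, lo ≤ q ax ≤ hi}` -/
structure Bar where
  ax : Fin 2
  pos : ℝ
  lo : ℝ
  hi : ℝ

/-- the coordinate of an end -/
def Bar.en (e : Bar) (b : Bool) : ℝ := if b then e.hi else e.lo

/-- the closed bar shortened by `γ` at both ends -/
def Bar.On (e : Bar) (γ : ℝ) (q : Pt) : Prop :=
  q e.ax.rev = e.pos ∧ e.lo + γ ≤ q e.ax ∧ q e.ax ≤ e.hi - γ

/-- the open bar -/
def Bar.In (e : Bar) (q : Pt) : Prop := q e.ax.rev = e.pos ∧ e.lo < q e.ax ∧ q e.ax < e.hi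

/-- an end point -/
def Bar.pt (e : Bar) (b : Bool) : Pt := fun k => if k = e.ax then e.en b else e.pos

/-- the quadrant at the end `b` that points along the bar, on the side `τ` -/
def Bar.om (e : Bar) (b τ : Bool) : Fin 2 → Bool := fun k => if k = e.ax then !b else τ

structure Sys (B : ℝ) (E : Finset Bar) : Prop where
  pos : 0 < B
  lt : ∀ e ∈ E, e.lo < e.hi
  box : ∀ e ∈ E, -B < e.pos ∧ e.pos < B ∧ -B ≤ e.lo ∧ e.hi ≤ B
  disj : ∀ e ∈ E, ∀ t ∈ E, ∀ q, e.In q → t.In q → e = t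
  ends : ∀ e ∈ E, ∀ b, e.en b = sg b * B ∨ ∃ t ∈ E, t.ax ≠ e.ax ∧ t.In (e.pt b)

structure Box where
  lo : Pt
  hi : Pt

def Box.bd (X : Box) (k : Fin 2) (b : Bool) : ℝ := if b then X.hi k else X.lo k

/-- the open box -/
def Box.In (X : Box) (q : Pt) : Prop := ∀ k, X.lo k < q k ∧ q k < X.hi k

/-- the closed box -/
def Box.Cl (X : Box) (q : Pt) : Prop := ∀ k, X.lo k ≤ q k ∧ q k ≤ X.hi k

/-- the box contains the points near `q` in the quadrant `ω` -/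
def Box.At (X : Box) (q : Pt) (ω : Fin 2 → Bool) : Prop :=
  ∀ k, if ω k then X.lo k ≤ q k ∧ q k < X.hi k else X.lo k < q k ∧ q k ≤ X.hi k

/-- the square `[-B, B]^2` -/
def sq (B : ℝ) : Box := ⟨fun _ => -B, fun _ => B⟩

structure IsCell (B : ℝ) (E : Finset Bar) (X : Box) : Prop where
  lt : ∀ k, X.lo k < X.hi k
  box : ∀ k, -B ≤ X.lo k ∧ X.hi k ≤ B
  free : ∀ q, X.In q → ∀ e ∈ E, ¬ e.On 0 q
  wall : ∀ k b, X.bd k b = sg b * B ∨
    ∀ q : Pt, q k = X.bd k b → X.lo k.rev < q k.rev → q k.rev < X.hi k.rev → ∃ e ∈ E, e.On 0 q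

abbrev Cell (B : ℝ) (E : Finset Bar) : Type := {X : Box // IsCell B E X}

/-- the coordinates that occur -/
def Lam (B : ℝ) (E : Finset Bar) (x : ℝ) : Prop := x = B ∨ x = -B ∨ ∃ e ∈ E, x = e.pos

/-- `X` is the room at the end `b` of the bar `e`, on the side `τ` -/
def Jc (X : Box) (e : Bar) (b τ : Bool) : Prop := X.At (e.pt b) (e.om b τ)

/-- `x` sees `q` among the shortened bars -/
def Lit (E : Finset Bar) (γ : ℝ) (x q : Pt) : Prop :=
  ∀ z ∈ openSegment ℝ x q, ∀ e ∈ E, ¬ e.On γ z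

/-- `S` illuminates the shortened bars -/
def Ill (E : Finset Bar) (γ : ℝ) (S : Finset Pt) : Prop :=
  (∀ x ∈ S, ∀ e ∈ E, ¬ e.On γ x) ∧ ∀ e ∈ E, ∀ q, e.On γ q → ∃ x ∈ S, Lit E γ x q

/-! ### multigraphs: `c j true`, `c j false` are the ends of the edge `j` -/

section
variable {V J : Type}

def dg [Fintype J] [DecidableEq V] (c : J → Bool → V) (v : V) : ℕ :=
  (univ.filter fun x : J × Bool => c x.1 x.2 = v).card

structure MG [Fintype J] [DecidableEq V] (c : J → Bool → V) (F : Finset V) : Prop where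
  ne : ∀ j, c j true ≠ c j false
  le : ∀ v, dg c v ≤ 4
  ge : ∀ v, v ∉ F → 4 ≤ dg c v
  sp : ∀ Y : Finset V, Y.Nonempty →
    (univ.filter fun j => c j true ∈ Y ∧ c j false ∈ Y).card + 2 ≤ 2 * Y.card

/-- `v` is covered by the edges of `M` -/
def Cov (c : J → Bool → V) (M : Finset J) (v : V) : Prop := ∃ j ∈ M, ∃ τ, c j τ = v

/-- `M` is a matching -/
def Mt (c : J → Bool → V) (M : Finset J) : Prop :=
  ∀ j ∈ M, ∀ j' ∈ M, ∀ τ τ', c j τ = c j' τ' → j = j'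

def Adj (c : J → Bool → V) (u v : V) : Prop := ∃ j τ, c j τ = u ∧ c j (!τ) = v

/-- distance at most `r` -/
def Near (c : J → Bool → V) : ℕ → V → V → Prop
  | 0, u, v => u = v
  | r + 1, u, v => Near c r u v ∨ ∃ w, Near c r u w ∧ Adj c w v

end

/-! ### basic lemmas -/

@[simp] theorem sg_true : sg true = 1 := rfl
@[simp] theorem sg_false : sg false = -1 := rfl
theorem sg_not (b : Bool) : sg (!b) = -sg b := by cases b <;> simp
theorem sg_mul_self (b : Bool) : sg b * sg b = 1 := by cases b <;> simp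

theorem rev_ne (k : Fin 2) : k.rev ≠ k := by fin_cases k <;> decide
theorem ne_rev (k : Fin 2) : k ≠ k.rev := (rev_ne k).symm
theorem eq_rev_of_ne {k l : Fin 2} (h : l ≠ k) : l = k.rev := by revert k l; decide
theorem eq_or_rev (k l : Fin 2) : l = k ∨ l = k.rev := by revert k l; decide
theorem forall_ax {p : Fin 2 → Prop} (k : Fin 2) : (∀ l, p l) ↔ p k ∧ p k.rev :=
  ⟨fun h => ⟨h _, h _⟩, fun h l => by rcases eq_or_rev k l with rfl | rfl; exacts [h.1, h.2]⟩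
theorem pt_ext (k : Fin 2) {p q : Pt} (h1 : p k = q k) (h2 : p k.rev = q k.rev) : p = q :=
  funext ((forall_ax k).2 ⟨h1, h2⟩)

@[simp] theorem Bar.en_true (e : Bar) : e.en true = e.hi := rfl
@[simp] theorem Bar.en_false (e : Bar) : e.en false = e.lo := rfl
@[simp] theorem Bar.pt_ax (e : Bar) (b : Bool) : e.pt b e.ax = e.en b := if_pos rfl
@[simp] theorem Bar.pt_rev (e : Bar) (b : Bool) : e.pt b e.ax.rev = e.pos := if_neg (rev_ne _)
@[simp] theorem Bar.om_ax (e : Bar) (b τ : Bool) : e.om b τ e.ax = !b := if_pos rfl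
@[simp] theorem Bar.om_rev (e : Bar) (b τ : Bool) : e.om b τ e.ax.rev = τ := if_neg (rev_ne _)
@[simp] theorem Box.bd_true (X : Box) (k : Fin 2) : X.bd k true = X.hi k := rfl
@[simp] theorem Box.bd_false (X : Box) (k : Fin 2) : X.bd k false = X.lo k := rfl

theorem Bar.On.mono {e : Bar} {γ γ' : ℝ} {q : Pt} (h : e.On γ q) (hγ : γ' ≤ γ) : e.On γ' q :=
  ⟨h.1, by linarith [h.2.1], by linarith [h.2.2]⟩

theorem Bar.On.inn {e : Bar} {γ : ℝ} {q : Pt} (h : e.On γ q) (hγ : 0 < γ) : e.In q :=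
  ⟨h.1, by linarith [h.2.1], by linarith [h.2.2]⟩

theorem Bar.In.on {e : Bar} {q : Pt} (h : e.In q) : e.On 0 q :=
  ⟨h.1, by linarith [h.2.1], by linarith [h.2.2]⟩

theorem Bar.on_pt {e : Bar} (h : e.lo < e.hi) (b : Bool) : e.On 0 (e.pt b) := by
  cases b <;> simp [Bar.On, h.le]

/-- a point of a closed bar is inside or an end -/
theorem Bar.On.cases {e : Bar} {q : Pt} (h : e.On 0 q) : e.In q ∨ ∃ b, q = e.pt b := by
  obtain ⟨h1, h2, h3⟩ := h
  rw [add_zero] at h2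
  rw [sub_zero] at h3
  rcases h2.eq_or_lt with h2 | h2
  · exact Or.inr ⟨false, pt_ext e.ax (by simp [h2]) (by simp [h1])⟩
  rcases h3.eq_or_lt with h3 | h3
  · exact Or.inr ⟨true, pt_ext e.ax (by simp [h3]) (by simp [h1])⟩
  exact Or.inl ⟨h1, h2, h3⟩

theorem Box.At.cl {X : Box} {q : Pt} {ω : Fin 2 → Bool} (h : X.At q ω) : X.Cl q := fun k => by
  have := h k
  split_ifs at this
  exacts [⟨this.1, this.2.le⟩, ⟨this.1.le, this.2⟩]

theorem Box.In.at {X : Box} {q : Pt} (h : X.In q) (ω : Fin 2 → Bool) : X.At q ω := fun k => by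
  split_ifs
  exacts [⟨(h k).1.le, (h k).2⟩, ⟨(h k).1, (h k).2.le⟩]

theorem Box.Cl.exists_at {X : Box} {q : Pt} (h : X.Cl q) (hX : ∀ k, X.lo k < X.hi k) :
    ∃ ω, X.At q ω := by
  classical
  refine ⟨fun k => decide (q k < X.hi k), fun k => ?_⟩
  by_cases e : q k < X.hi k
  · simpa [e] using (h k).1
  · simp only [e, decide_false, Bool.false_eq_true, if_false]
    exact ⟨(hX k).trans_le (not_lt.1 e), (h k).2⟩

theorem IsCell.at_sq {B : ℝ} {E : Finset Bar} {X : Box} (hX : IsCell B E X) {q : Pt}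
    {ω : Fin 2 → Bool} (h : X.At q ω) : (sq B).At q ω := fun k => by
  have h1 := h k
  have h2 := hX.box k
  simp only [sq]
  split_ifs at h1 ⊢ <;> constructor <;> linarith [h1.1, h1.2, h2.1, h2.2]

theorem jc_iff {X : Box} {e : Bar} {b τ : Bool} : Jc X e b τ ↔
    (if b then X.lo e.ax < e.hi ∧ e.hi ≤ X.hi e.ax else X.lo e.ax ≤ e.lo ∧ e.lo < X.hi e.ax) ∧
    (if τ then X.lo e.ax.rev ≤ e.pos ∧ e.pos < X.hi e.ax.rev
      else X.lo e.ax.rev < e.pos ∧ e.pos ≤ X.hi e.ax.rev) := by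
  rw [Jc, Box.At, forall_ax e.ax]
  cases b <;> simp

variable {B : ℝ} {E : Finset Bar}

theorem Sys.at_sq (h : Sys B E) {e : Bar} (he : e ∈ E) (b τ : Bool) : Jc (sq B) e b τ := by
  obtain ⟨h1, h2, h3, h4⟩ := h.box e he
  have h5 := h.lt e he
  rw [jc_iff]
  cases b <;> cases τ <;> simp [sq] <;> refine ⟨⟨?_, ?_⟩, ?_, ?_⟩ <;> linarith

theorem Sys.lam_en (h : Sys B E) {e : Bar} (he : e ∈ E) (b : Bool) : Lam B E (e.en b) := by
  rcases h.ends e he b with h1 | ⟨t, ht, h1, h2⟩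
  · cases b
    · exact Or.inr (Or.inl (by simpa using h1))
    · exact Or.inl (by simpa using h1)
  · refine Or.inr (Or.inr ⟨t, ht, ?_⟩)
    rw [← h2.1, eq_rev_of_ne h1, Fin.rev_rev, Bar.pt_ax]

theorem lam_finite (B : ℝ) (E : Finset Bar) : {x | Lam B E x}.Finite := by
  refine ((Set.finite_singleton B).union ((Set.finite_singleton (-B)).union
    (E.finite_toSet.image Bar.pos))).subset ?_
  rintro x (h | h | ⟨e, he, h⟩)
  exacts [Or.inl h, Or.inr (Or.inl h), Or.inr (Or.inr ⟨e, he, h.symm⟩)]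

/-- a point is isolated from the coordinates that differ from it -/
theorem exists_gap_at (B : ℝ) (E : Finset Bar) (y : ℝ) :
    ∃ ε > 0, ∀ x, Lam B E x → |x - y| < ε → x = y := by
  obtain ⟨ε, hε, h⟩ := Metric.isOpen_iff.1
    ((lam_finite B E).diff (t := {y})).isClosed.isOpen_compl y (fun h => h.2 rfl)
  refine ⟨ε, hε, fun x hx hxy => ?_⟩
  by_contra e
  exact h (show x ∈ Metric.ball y ε by rwa [Metric.mem_ball, Real.dist_eq]) ⟨hx, e⟩

/-- the least distance of two coordinates -/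
theorem exists_gap (B : ℝ) (E : Finset Bar) :
    ∃ ε > 0, ∀ x y, Lam B E x → Lam B E y → |x - y| < ε → x = y := by
  choose f hf hf' using exists_gap_at B E
  obtain ⟨y0, -, h0⟩ := (lam_finite B E).toFinset.exists_min_image f
    ⟨B, by simp [Lam]⟩
  exact ⟨f y0, hf y0, fun x y hx hy h => hf' y x hx (h.trans_le (h0 y (by simpa using hy)))⟩

/-- a light inside a room sees the closed room -/
theorem IsCell.lit {X : Box} (hX : IsCell B E X) {γ : ℝ} (hγ : 0 ≤ γ) {x q : Pt} (hx : X.In x)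
    (hq : X.Cl q) : Lit E γ x q := by
  rintro z ⟨a, b, ha, hb, hab, rfl⟩ e he h
  refine hX.free _ (fun k => ?_) e he (h.mono hγ)
  obtain ⟨h1, h2⟩ := hx k
  obtain ⟨h3, h4⟩ := hq k
  simp only [Pi.add_apply, Pi.smul_apply, smul_eq_mul]
  have e1 : X.lo k = a * X.lo k + b * X.lo k := by rw [← add_mul, hab, one_mul]
  have e2 : X.hi k = a * X.hi k + b * X.hi k := by rw [← add_mul, hab, one_mul]
  constructor <;> nlinarith

theorem Adj.symm {V J : Type} {c : J → Bool → V} {u v : V} (h : Adj c u v) : Adj c v u := by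
  obtain ⟨j, τ, h1, h2⟩ := h
  exact ⟨j, !τ, h2, by rw [Bool.not_not, h1]⟩

theorem Near.mono {V J : Type} {c : J → Bool → V} {r s : ℕ} {u v : V} (h : Near c r u v)
    (hrs : r ≤ s) : Near c s u v := by
  induction hrs with
  | refl => exact h
  | step _ ih => exact Or.inl ih

theorem Near.refl {V J : Type} (c : J → Bool → V) (r : ℕ) (u : V) : Near c r u u :=
  Near.mono (r := 0) rfl (Nat.zero_le r)

theorem Near.step {V J : Type} {c : J → Bool → V} {r : ℕ} {u v w : V} (h : Near c r u v)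
    (h' : Adj c v w) : Near c (r + 1) u w := Or.inr ⟨v, h, h'⟩

/-! ### statements -/

/-- Extension of a family of disjoint axis parallel segments to a system. -/
def S_SYS : Prop := ∀ (n : ℕ) (a b : Fin n → Pt), (∀ i, a i 0 = b i 0 ∨ a i 1 = b i 1) →
  (Pairwise fun i j => Disjoint (segment ℝ (a i) (b i)) (segment ℝ (a j) (b j))) →
  ∃ (B γ : ℝ) (E : Finset Bar), Sys B E ∧ 0 < γ ∧ E.card ≤ n ∧
    ∀ i, ∃ e ∈ E, ∀ q ∈ segment ℝ (a i) (b i), e.On γ q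

/-- Uniqueness of rooms, their coordinates, finiteness. -/
def S_UN : Prop := ∀ (B : ℝ) (E : Finset Bar), Sys B E →
  (∀ (X Y : Box) (q : Pt) (ω : Fin 2 → Bool), IsCell B E X → IsCell B E Y → X.At q ω → Y.At q ω →
    X = Y) ∧
  (∀ X, IsCell B E X → ∀ k b, Lam B E (X.bd k b)) ∧ Finite (Cell B E)

/-- Existence of rooms. -/
def S_EX : Prop := ∀ (B : ℝ) (E : Finset Bar), Sys B E →
  ∀ (q : Pt) (ω : Fin 2 → Bool), (sq B).At q ω → ∃ X, IsCell B E X ∧ X.At q ω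

/-- The room at an end of a bar has a corner there, and its side lies in the bar. -/
def S_J1 : Prop := ∀ (B : ℝ) (E : Finset Bar), Sys B E → ∀ X, IsCell B E X → ∀ e ∈ E, ∀ b τ,
  Jc X e b τ → X.bd e.ax b = e.en b ∧ X.bd e.ax.rev (!τ) = e.pos ∧
    e.lo ≤ X.lo e.ax ∧ X.hi e.ax ≤ e.hi

/-- A corner of a room belongs to at most one end of a bar. -/
def S_J2 : Prop := ∀ (B : ℝ) (E : Finset Bar), Sys B E → ∀ X, IsCell B E X →
  ∀ e ∈ E, ∀ e' ∈ E, ∀ b τ b' τ', Jc X e b τ → Jc X e' b' τ' → e.om b τ = e'.om b' τ' →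
    e = e' ∧ b = b' ∧ τ = τ'

/-- A corner of a room that is not a corner of the square belongs to an end of a bar. -/
def S_J3 : Prop := ∀ (B : ℝ) (E : Finset Bar), Sys B E → ∀ X, IsCell B E X →
  ∀ ω : Fin 2 → Bool, (∃ k, X.bd k (!ω k) ≠ sg (!ω k) * B) →
    ∃ e ∈ E, ∃ b τ, e.om b τ = ω ∧ Jc X e b τ ∧ e.pt b = fun k => X.bd k (!ω k)

/-- The rooms and the ends of bars form a sparse almost four-regular multigraph. -/
def S_MG : Prop := ∀ (B : ℝ) (E : Finset Bar), Sys B E →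
  ∀ [Fintype (Cell B E)] [DecidableEq (Cell B E)] (c : E × Bool → Bool → Cell B E),
  (∀ j τ, Jc (c j τ).1 j.1.1 j.2 τ) →
  ∃ F : Finset (Cell B E), F.card ≤ 4 ∧ MG c F ∧ Fintype.card (Cell B E) ≤ E.card + 4 ∧
    E.card ≤ Fintype.card (Cell B E)

/-- Rooms that touch along a bar. -/
def S_TCH : Prop := ∀ (B : ℝ) (E : Finset Bar), Sys B E →
  (∀ e ∈ E, ∀ q, e.In q → ∃ X Y, IsCell B E X ∧ IsCell B E Y ∧ X ≠ Y ∧ X.Cl q ∧ Y.Cl q) ∧
  (∀ e ∈ E, ∀ q, e.On 0 q → ∀ X Y, IsCell B E X → IsCell B E Y → X.Cl q → Y.Cl q →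
    ∃ t ∈ E, ∃ b, X.Cl (t.pt b) ∧ Y.Cl (t.pt b)) ∧
  ∀ e : Bar, {X : Cell B E | ∃ b, X.1.Cl (e.pt b)}.ncard ≤ 8

/-- A light near an end of a bar sees both rooms, up to a small shadow at the far end. -/
def S_LGT : Prop := ∀ (B : ℝ) (E : Finset Bar), Sys B E → ∀ γ η : ℝ, 0 < γ → 0 < η →
  ∀ e ∈ E, ∀ b σ X Y, IsCell B E X → IsCell B E Y → Jc X e b σ → Jc Y e b (!σ) →
  ∃ x, X.In x ∧ ∀ t ∈ E, ∀ q, t.On γ q → Y.Cl q → Lit E γ x q ∨
    (Y.Cl (e.pt (!b)) ∧ q e.ax = e.en (!b) ∧ 0 < sg (!σ) * (q e.ax.rev - e.pos) ∧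
      sg (!σ) * (q e.ax.rev - e.pos) < η)

/-- From a combinatorial cover to lights. -/
def S_ASM : Prop := ∀ (B : ℝ) (E : Finset Bar), Sys B E → ∀ γ : ℝ, 0 < γ →
  ∀ (I : Set Box) (F : Finset Box) (M : Finset (Bar × Bool)), (∀ j ∈ M, j.1 ∈ E) →
  (∀ X ∈ F, IsCell B E X) →
  (∀ X ∈ I, ∀ Y ∈ I, ∀ e ∈ E, ∀ b b', X.Cl (e.pt b) → Y.Cl (e.pt b') → X = Y) →
  (∀ j ∈ M, ∀ τ X, IsCell B E X → Jc X j.1 j.2 τ → X ∉ I) →
  (∀ X, IsCell B E X → X ∈ I ∨ X ∈ F ∨ ∃ j ∈ M, ∃ τ, Jc X j.1 j.2 τ) →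
  ∃ S : Finset Pt, S.card ≤ M.card + F.card ∧ Ill E γ S

/-- Matchings that cover everything outside a set of optional vertices. -/
def S_TUT : Prop := ∀ (V J : Type) [Fintype V] [Fintype J] [DecidableEq V] (c : J → Bool → V)
  (F F' A : Finset V), MG c F → F ⊆ F' → A.card ≤ 1 →
  ∃ M, Mt c M ∧ (∀ v ∈ A, ¬ Cov c M v) ∧ ∀ v, v ∉ F' → v ∉ A → Cov c M v

/-- Alternating paths. -/
def S_ALT : Prop := ∀ (V J : Type) [Fintype V] [Fintype J] [DecidableEq V] (c : J → Bool → V)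
  (F : Finset V) (M0 : Finset J) (a : V) (m : ℕ) (Bad : Finset V), MG c F → Mt c M0 →
  (∀ v, v ∉ F → Cov c M0 v) → (∀ v ∈ F, ¬ Near c (2 * m) a v) → Bad.card < m →
  ∃ (b : V) (Out In : Finset J), b ∉ Bad ∧ b ≠ a ∧ Out ⊆ M0 ∧ In.card + 1 ≤ Out.card ∧
    (∀ v, Cov c Out v → Near c (2 * m) a v) ∧ Cov c Out a ∧ Cov c Out b ∧
    ∀ v, Cov c In v ↔ Cov c Out v ∧ v ≠ a ∧ v ≠ b

/-- Balls are small; large independent sets. -/
def S_IND : Prop :=
  (∀ (V J : Type) [Fintype V] [Fintype J] [DecidableEq V] (c : J → Bool → V), (∀ v, dg c v ≤ 4) →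
    ∀ r a, {v | Near c r a v}.ncard ≤ 5 ^ r ∧ ∀ v, Near c r a v → Near c r v a) ∧
  ∀ (V : Type) [DecidableEq V] (A : Finset V) (R : V → V → Prop) [DecidableRel R] (K : ℕ),
    (∀ u v, R u v → R v u) → ∑ a ∈ A, (A.filter (R a)).card ≤ K * A.card →
    ∃ T ⊆ A, (∀ u ∈ T, ∀ v ∈ T, R u v → u = v) ∧ A.card ≤ 2 * (2 * K + 1) * T.card

/-- The combinatorial theorem. -/
def S_COMB : Prop := ∃ δ : ℝ, 0 < δ ∧ δ < 1 / 2 ∧ ∃ C : ℝ,
  ∀ (V J W : Type) [Fintype V] [Fintype J] [Fintype W] [DecidableEq V] (c : J → Bool → V)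
  (F : Finset V) (Nb : W → Finset V), MG c F → F.card ≤ 4 → (∀ w, (Nb w).card ≤ 8) →
  Fintype.card W ≤ Fintype.card V →
  ∃ (I : Finset V) (M : Finset J), (∀ u ∈ I, ∀ v ∈ I, ∀ w, u ∈ Nb w → v ∈ Nb w → u = v) ∧
    (∀ v ∈ I, ¬ Cov c M v) ∧ (∀ v, v ∈ I ∨ v ∈ F ∨ Cov c M v) ∧
    (M.card : ℝ) ≤ (1 / 2 - δ) * Fintype.card V + C

end Pool.Agent.P.MP_5f84aa_co
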