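import Pool.Agent.P.MP_5f84aa_co.Defs

/-! Assembly of the illumination project. -/

namespace Pool.Agent.P.MP_5f84aa_co

open Finset

theorem final (hSYS : S_SYS) (hUN : S_UN) (hEX : S_EX) (hMG : S_MG) (hTCH : S_TCH) (hASM : S_ASM)
    (hCOMB : S_COMB) :
    ∃ δ : ℝ, 0 < δ ∧ ∃ C : ℝ, ∀ (n : ℕ) (a b : Fin n → Fin 2 → ℝ),
      (∀ i, a i 0 = b i 0 ∨ a i 1 = b i 1) →
      (Pairwise fun i j => Disjoint (segment ℝ (a i) (b i)) (segment ℝ (a j) (b j))) →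
      ∃ S : Finset (Fin 2 → ℝ), (S.card : ℝ) ≤ (1 / 2 - δ) * n + C ∧
        (∀ x ∈ S, ∀ i, x ∉ segment ℝ (a i) (b i)) ∧
        ∀ i, ∀ q ∈ segment ℝ (a i) (b i), ∃ x ∈ S, ∀ j,
          Disjoint (openSegment ℝ x q) (segment ℝ (a j) (b j)) := by
  classical
  obtain ⟨δ, hδ, hδ', C, hC⟩ := hCOMB
  refine ⟨δ, hδ, C + 6, fun n a b hab hd => ?_⟩
  obtain ⟨B, γ, E, hS, hγ, hE, hin⟩ := hSYS n a b hab hd
  obtain ⟨hU, -, hfin⟩ := hUN B E hS
  haveI := hfin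
  letI : Fintype (Cell B E) := Fintype.ofFinite _
  have hc : ∀ (j : E × Bool) (τ : Bool), ∃ X : Cell B E, Jc X.1 j.1.1 j.2 τ := fun j τ => by
    obtain ⟨X, h1, h2⟩ := hEX B E hS _ _ (hS.at_sq j.1.2 j.2 τ)
    exact ⟨⟨X, h1⟩, h2⟩
  choose c hc using hc
  obtain ⟨F, hF4, hM, hV, hEV⟩ := hMG B E hS c hc
  let Nb : E → Finset (Cell B E) := fun e => univ.filter fun X => ∃ b, X.1.Cl (e.1.pt b)
  have hNb : ∀ e, (Nb e).card ≤ 8 := fun e => by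
    have := (hTCH B E hS).2.2 e.1
    rwa [← Set.ncard_coe_finset, coe_filter_univ]
  obtain ⟨I, M, hI, hIM, hcov, hcard⟩ := hC (Cell B E) (E × Bool) E c F Nb hM hF4 hNb
    (by rwa [Fintype.card_coe])
  have hcell : ∀ (j : E × Bool) τ (X : Cell B E), Jc X.1 j.1.1 j.2 τ → c j τ = X := fun j τ X h =>
    Subtype.ext (hU _ _ _ _ (c j τ).2 X.2 (hc j τ) h)
  obtain ⟨S, hSc, hS1, hS2⟩ := hASM B E hS γ hγ (Subtype.val '' (I : Set (Cell B E)))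
    (F.image Subtype.val) (M.image fun j => (j.1.1, j.2))
    (fun j hj => by
      obtain ⟨j', -, rfl⟩ := mem_image.1 hj
      exact j'.1.2)
    (fun X hX => by
      obtain ⟨X', -, rfl⟩ := mem_image.1 hX
      exact X'.2)
    (by
      rintro _ ⟨X, hX, rfl⟩ _ ⟨Y, hY, rfl⟩ e he b b' h h'
      exact congrArg _ (hI X hX Y hY ⟨e, he⟩ (mem_filter.2 ⟨mem_univ _, b, h⟩)
        (mem_filter.2 ⟨mem_univ _, b', h'⟩)))
    (by
      rintro j hj τ _ - h ⟨X, hX, rfl⟩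
      obtain ⟨j', hj', rfl⟩ := mem_image.1 hj
      exact hIM X hX ⟨j', hj', τ, hcell j' τ X h⟩)
    (fun X hX => by
      rcases hcov ⟨X, hX⟩ with h | h | ⟨j, hj, τ, h⟩
      · exact Or.inl ⟨_, h, rfl⟩
      · exact Or.inr (Or.inl (mem_image.2 ⟨_, h, rfl⟩))
      · refine Or.inr (Or.inr ⟨_, mem_image.2 ⟨j, hj, rfl⟩, τ, ?_⟩)
        have := hc j τ
        rwa [h] at this)
  refine ⟨S, ?_, fun x hx i h => ?_, fun i q hq => ?_⟩
  · have h1 : S.card ≤ M.card + 4 :=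
      hSc.trans (add_le_add card_image_le (card_image_le.trans hF4))
    have h2 : (S.card : ℝ) ≤ M.card + 4 := by exact_mod_cast h1
    have h3 : (Fintype.card (Cell B E) : ℝ) ≤ n + 4 := by exact_mod_cast hV.trans (by omega)
    nlinarith
  · obtain ⟨e, he, h'⟩ := hin i
    exact hS1 x hx e he (h' x h)
  · obtain ⟨e, he, h'⟩ := hin i
    obtain ⟨x, hx, hl⟩ := hS2 e he q (h' q hq)
    refine ⟨x, hx, fun j => Set.disjoint_left.2 fun z hz hz' => ?_⟩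
    obtain ⟨t, ht, h''⟩ := hin j
    exact hl z hz t ht (h'' z hz')

end Pool.Agent.P.MP_5f84aa_co
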