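import Pool.Agent.P.MP_5f84aa_co.Defs

/-! Step ALT of the illumination project. -/

namespace Pool.Agent.P.MP_5f84aa_co

open Finset

namespace ALTA

variable {V J : Type} {c : J → Bool → V}

theorem cov_insert [DecidableEq J] {M : Finset J} (j : J) (τ : Bool) (v : V) :
    Cov c (insert j M) v ↔ v = c j τ ∨ v = c j (!τ) ∨ Cov c M v := by
  constructor
  · rintro ⟨j', hj, σ, rfl⟩
    rcases mem_insert.1 hj with rfl | hj
    · cases τ <;> cases σ <;> simp
    · exact Or.inr (Or.inr ⟨j', hj, σ, rfl⟩)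
  · rintro (rfl | rfl | ⟨j', hj, σ, rfl⟩)
    exacts [⟨j, mem_insert_self _ _, _, rfl⟩, ⟨j, mem_insert_self _ _, _, rfl⟩,
      ⟨j', mem_insert_of_mem hj, σ, rfl⟩]

theorem not_cov_empty (v : V) : ¬ Cov c ∅ v := by
  rintro ⟨j, hj, -⟩
  exact notMem_empty j hj

theorem ne_not (h : ∀ j, c j true ≠ c j false) (j : J) (τ : Bool) : c j (!τ) ≠ c j τ := by
  cases τ
  exacts [h j, (h j).symm]

end ALTA

open ALTA in
theorem s_ALT (hTUT : S_TUT) : S_ALT := by
  classical
  intro V J _ _ _ c F M0 a m Bad hG h0 hc0 hF hB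
  obtain ⟨M', h1, ha', hc1⟩ := hTUT V J c F (univ.filter fun v => ¬ Near c (2 * m) a v) {a} hG
    (fun v hv => mem_filter.2 ⟨mem_univ _, hF v hv⟩) (by simp)
  have ha : ¬ Cov c M' a := ha' a (mem_singleton_self a)
  have hcov1 : ∀ v, Near c (2 * m) a v → v ≠ a → Cov c M' v := fun v hv hva =>
    hc1 v (fun h => (mem_filter.1 h).2 hv) (fun h => hva (mem_singleton.1 h))
  have hcov0 : ∀ v, Near c (2 * m) a v → Cov c M0 v := fun v hv => hc0 v fun h => hF v h hv
  have key : ∀ i, i ≤ Bad.card → ∃ (b : V) (Out In : Finset J), In ⊆ M' ∧ Out ⊆ M0 ∧ b ≠ a ∧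
      In.card + 1 ≤ Out.card ∧ (∀ v, Cov c Out v → Near c (2 * i + 1) a v) ∧ Cov c Out a ∧
      Cov c Out b ∧ (∀ v, Cov c In v ↔ Cov c Out v ∧ v ≠ a ∧ v ≠ b) ∧
      (b ∉ Bad ∨ i + 1 ≤ (Bad.filter (Cov c Out)).card) := by
    intro i
    induction i with
    | zero =>
      intro _
      obtain ⟨j, hj, τ, rfl⟩ := hcov0 a (Near.refl c _ a)
      have e : ∀ v, Cov c (insert j ∅) v ↔ v = c j τ ∨ v = c j (!τ) := fun v => by
        rw [cov_insert j τ]
        simp [not_cov_empty]
      refine ⟨c j (!τ), insert j ∅, ∅, empty_subset _, insert_subset hj (empty_subset _),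
        ne_not hG.ne j τ, by simp, fun v hv => ?_, (e _).2 (Or.inl rfl), (e _).2 (Or.inr rfl),
        fun v => ?_, ?_⟩
      · rcases (e v).1 hv with rfl | rfl
        · exact Near.refl c _ _
        · exact (Near.refl c 0 _).step ⟨j, τ, rfl, rfl⟩
      · rw [e]
        simp only [not_cov_empty, false_iff]
        tauto
      · by_cases hb : c j (!τ) ∈ Bad
        · exact Or.inr (card_pos.2 ⟨_, mem_filter.2 ⟨hb, (e _).2 (Or.inr rfl)⟩⟩)
        · exact Or.inl hb
    | succ i ih =>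
      intro hi
      obtain ⟨b, Out, In, p1, p2, p3, p4, p5, p6, p7, p8, p9⟩ := ih (by omega)
      rcases p9 with p9 | p9
      · exact ⟨b, Out, In, p1, p2, p3, p4, fun v hv => (p5 v hv).mono (by omega), p6, p7, p8,
          Or.inl p9⟩
      obtain ⟨j', hj', τ, rfl⟩ := hcov1 b ((p5 b p7).mono (by omega)) p3
      have hjIn : j' ∉ In := fun h => ((p8 _).1 ⟨j', h, τ, rfl⟩).2.2 rfl
      have hua : c j' (!τ) ≠ a := fun h => ha ⟨j', hj', _, h⟩
      have huO : ¬ Cov c Out (c j' (!τ)) := fun h => by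
        obtain ⟨j, hj, σ, e⟩ := (p8 _).2 ⟨h, hua, ne_not hG.ne j' τ⟩
        exact hjIn (h1 j (p1 hj) j' hj' _ _ e ▸ hj)
      have hun : Near c (2 * i + 1 + 1) a (c j' (!τ)) := (p5 _ p7).step ⟨j', τ, rfl, rfl⟩
      obtain ⟨j, hj, σ, e⟩ := hcov0 _ (hun.mono (by omega))
      have hjO : j ∉ Out := fun h => huO ⟨j, h, σ, e⟩
      have hbO : ¬ Cov c Out (c j (!σ)) := by
        rintro ⟨j₁, hj₁, σ₁, e₁⟩
        exact hjO (h0 j₁ (p2 hj₁) j hj _ _ e₁ ▸ hj₁)
      have hbu : c j (!σ) ≠ c j' (!τ) := e ▸ ne_not hG.ne j σ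
      refine ⟨c j (!σ), insert j Out, insert j' In, insert_subset hj' p1, insert_subset hj p2,
        fun h => hbO (h ▸ p6), ?_, fun v hv => ?_, ?_, ?_, fun v => ?_, ?_⟩
      · rw [card_insert_of_notMem hjO, card_insert_of_notMem hjIn]
        omega
      · rcases (cov_insert j σ v).1 hv with rfl | rfl | hv
        · rw [e]; exact hun.mono (by omega)
        · exact hun.step ⟨j, σ, e, rfl⟩
        · exact (p5 v hv).mono (by omega)
      · exact (cov_insert j σ _).2 (Or.inr (Or.inr p6))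
      · exact (cov_insert j σ _).2 (Or.inr (Or.inl rfl))
      · rw [cov_insert j σ, cov_insert j' τ, p8, e]
        constructor
        · rintro (rfl | rfl | ⟨q1, q2, -⟩)
          · exact ⟨Or.inr (Or.inr p7), p3, fun h => hbO (h ▸ p7)⟩
          · exact ⟨Or.inl rfl, hua, hbu.symm⟩
          · exact ⟨Or.inr (Or.inr q1), q2, fun h => hbO (h ▸ q1)⟩
        · rintro ⟨q1 | q1 | q1, q2, q3⟩
          · exact Or.inr (Or.inl q1)
          · exact absurd q1 q3
          · by_cases h : v = c j' τ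
            exacts [Or.inl h, Or.inr (Or.inr ⟨q1, q2, h⟩)]
      · by_cases hb : c j (!σ) ∈ Bad
        · refine Or.inr ?_
          have hs : insert (c j (!σ)) (Bad.filter (Cov c Out)) ⊆
              Bad.filter (Cov c (insert j Out)) := by
            refine insert_subset (mem_filter.2 ⟨hb, (cov_insert j σ _).2 (Or.inr (Or.inl rfl))⟩)
              fun v hv => mem_filter.2 ⟨(mem_filter.1 hv).1,
                (cov_insert j σ _).2 (Or.inr (Or.inr (mem_filter.1 hv).2))⟩
          have := card_le_card hs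
          rw [card_insert_of_notMem fun h => hbO (mem_filter.1 h).2] at this
          omega
        · exact Or.inl hb
  obtain ⟨b, Out, In, -, p2, p3, p4, p5, p6, p7, p8, p9⟩ := key _ le_rfl
  refine ⟨b, Out, In, ?_, p3, p2, p4, fun v hv => (p5 v hv).mono (by omega), p6, p7, p8⟩
  rcases p9 with p9 | p9
  · exact p9
  · have := card_filter_le Bad (Cov c Out)
    omega

end Pool.Agent.P.MP_5f84aa_co
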