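import Pool.Agent.P.MP_5f84aa_co.Defs

/-! Step ASM of the illumination project. -/

namespace Pool.Agent.P.MP_5f84aa_co

open Finset

namespace ASMA

variable {B : ℝ} {E : Finset Bar}

/-- the shadow at the far end of a bar that is a full side of two rooms -/
def Sh (B : ℝ) (E : Finset Bar) (I : Set Box) (η : ℝ) (e : Bar) (Y : Box) (q : Pt) : Prop :=
  ∃ b, Jc Y e b b ∧ (∀ Z ∈ I, IsCell B E Z → ¬ Z.Cl (e.pt (!b))) ∧ q e.ax = e.en (!b) ∧
    0 < sg b * (q e.ax.rev - e.pos) ∧ sg b * (q e.ax.rev - e.pos) < η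

theorem cl_pt {X : Box} {e : Bar} {b : Bool} : X.Cl (e.pt b) ↔
    (X.lo e.ax ≤ e.en b ∧ e.en b ≤ X.hi e.ax) ∧ X.lo e.ax.rev ≤ e.pos ∧ e.pos ≤ X.hi e.ax.rev := by
  rw [Box.Cl, forall_ax e.ax, Bar.pt_ax, Bar.pt_rev]

/-- a room at one end that contains the other end is a room at both ends -/
theorem jc_span {X : Box} {e : Bar} (he : e.lo < e.hi) {b τ : Bool} (h : Jc X e b τ)
    (h' : X.Cl (e.pt (!b))) (b' : Bool) : Jc X e b' τ := by
  rw [jc_iff] at h ⊢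
  refine ⟨?_, h.2⟩
  have h1 := h.1
  have h2 := (cl_pt.1 h').1
  cases b <;> cases b' <;> simp at h1 h2 ⊢ <;> constructor <;> linarith [h1.1, h1.2, h2.1, h2.2]

theorem jc_both {X : Box} {e : Bar} (he : e.lo < e.hi) (hX : ∀ k, X.lo k < X.hi k)
    (h : X.Cl (e.pt true)) (h' : X.Cl (e.pt false)) (b : Bool) : ∃ τ, Jc X e b τ := by
  obtain ⟨h1, h2⟩ := cl_pt.1 h
  obtain ⟨h3, -⟩ := cl_pt.1 h'
  have h4 := hX e.ax.rev
  simp only [Bar.en_true, Bar.en_false] at h1 h3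
  have h5 : (if b then X.lo e.ax < e.hi ∧ e.hi ≤ X.hi e.ax
      else X.lo e.ax ≤ e.lo ∧ e.lo < X.hi e.ax) := by
    cases b <;> simp <;> constructor <;> linarith [h1.1, h1.2, h3.1, h3.2]
  rcases h2.2.lt_or_eq with h6 | h6
  · exact ⟨true, jc_iff.2 ⟨h5, by simpa using ⟨h2.1, h6⟩⟩⟩
  · exact ⟨false, jc_iff.2 ⟨h5, by simpa using ⟨h6 ▸ h4, h2.2⟩⟩⟩

theorem key (hUN : S_UN) (hEX : S_EX) (hLGT : S_LGT) (hS : Sys B E) {γ η : ℝ} (hγ : 0 < γ)
    (hη : 0 < η) {I : Set Box}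
    (hI : ∀ X ∈ I, ∀ Y ∈ I, ∀ e ∈ E, ∀ b b', X.Cl (e.pt b) → Y.Cl (e.pt b') → X = Y)
    {e : Bar} (he : e ∈ E) (b : Bool) (hb : ∀ τ X, IsCell B E X → Jc X e b τ → X ∉ I) :
    ∃ x, (∃ X, IsCell B E X ∧ X.In x) ∧ ∀ τ Y, IsCell B E Y → Jc Y e b τ → ∀ t ∈ E, ∀ q,
      t.On γ q → Y.Cl q → Lit E γ x q ∨ Sh B E I η e Y q := by
  have hU := (hUN B E hS).1
  choose X hX hX' using fun τ => hEX B E hS _ _ (hS.at_sq he b τ)
  have hXY : ∀ τ Y, IsCell B E Y → Jc Y e b τ → Y = X τ := fun τ Y h1 h2 =>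
    hU _ _ _ _ h1 (hX τ) h2 (hX' τ)
  by_cases h : ∃ τ, ¬ (X τ).Cl (e.pt (!b))
  · obtain ⟨τ, h⟩ := h
    obtain ⟨x, hx, hl⟩ := hLGT B E hS γ η hγ hη e he b (!τ) (X (!τ)) (X τ) (hX _) (hX _) (hX' _)
      (by rw [Bool.not_not]; exact hX' τ)
    refine ⟨x, ⟨_, hX _, hx⟩, fun τ' Y h1 h2 t ht q h3 h4 => Or.inl ?_⟩
    obtain rfl := hXY τ' Y h1 h2
    rcases Bool.eq_or_eq_not τ' τ with rfl | rfl
    · exact (hl t ht q h3 h4).resolve_right fun h5 => h h5.1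
    · exact h1.lit hγ.le hx h4
  · push Not at h
    have hsp : ∀ τ b', Jc (X τ) e b' τ := fun τ b' => jc_span (hS.lt e he) (hX' τ) (h τ) b'
    have h0 : ∃ b0, ∀ Z ∈ I, IsCell B E Z → ¬ Z.Cl (e.pt (!b0)) := by
      by_contra h1
      push Not at h1
      obtain ⟨Z, hZ, hZc, h2⟩ := h1 false
      obtain ⟨Z', hZ', -, h3⟩ := h1 true
      obtain rfl := hI Z hZ Z' hZ' e he _ _ h2 h3
      obtain ⟨τ, h4⟩ := jc_both (hS.lt e he) hZc.lt h2 h3 b
      exact hb τ Z hZc h4 hZ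
    obtain ⟨b0, h0⟩ := h0
    obtain ⟨x, hx, hl⟩ := hLGT B E hS γ η hγ hη e he b0 (!b0) (X (!b0)) (X b0) (hX _) (hX _)
      (hsp _ _) (by rw [Bool.not_not]; exact hsp _ _)
    refine ⟨x, ⟨_, hX _, hx⟩, fun τ' Y h1 h2 t ht q h3 h4 => ?_⟩
    obtain rfl := hXY τ' Y h1 h2
    rcases Bool.eq_or_eq_not τ' b0 with rfl | rfl
    · refine (hl t ht q h3 h4).imp_right fun h5 => ⟨τ', hsp _ _, h0, h5.2.1, ?_⟩
      simpa only [Bool.not_not] using h5.2.2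
    · exact Or.inl (h1.lit hγ.le hx h4)

theorem abs_of {b : Bool} {x η : ℝ} (h1 : 0 < sg b * x) (h2 : sg b * x < η) : |x| < η ∧ x ≠ 0 := by
  cases b <;> simp at h1 h2 <;> refine ⟨abs_lt.2 ⟨?_, ?_⟩, ?_⟩ <;> first | linarith | exact h1.ne | exact h1.ne'

/-- two shadows at one point belong to the same room -/
theorem sh_eq (hUN : S_UN) (hS : Sys B E) {g : ℝ}
    (hg : ∀ x y, Lam B E x → Lam B E y → |x - y| < g → x = y) {I : Set Box} {e e' : Bar}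
    (he : e ∈ E) (he' : e' ∈ E) {X Y : Box} (hX : IsCell B E X) (hY : IsCell B E Y) {q : Pt}
    (h : Sh B E I (g / 2) e X q) (h' : Sh B E I (g / 2) e' Y q) : X = Y := by
  obtain ⟨b, h1, -, h2, h3, h4⟩ := h
  obtain ⟨b', h1', -, h2', h3', h4'⟩ := h'
  obtain ⟨h5, h6⟩ := abs_of h3 h4
  obtain ⟨h5', h6'⟩ := abs_of h3' h4'
  have hp : Lam B E e.pos := Or.inr (Or.inr ⟨e, he, rfl⟩)
  have hp' : Lam B E e'.pos := Or.inr (Or.inr ⟨e', he', rfl⟩)
  have hg0 : 0 < g := by linarith [abs_nonneg (q e.ax.rev - e.pos)]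
  have hax : e'.ax = e.ax := by
    by_contra hne
    rw [eq_rev_of_ne hne] at h2'
    refine h6 (sub_eq_zero.2 (hg _ _ ?_ hp (by linarith)))
    rw [h2']
    exact hS.lam_en he' _
  rw [hax] at h2' h3' h5'
  have hpos : e'.pos = e.pos := by
    refine hg _ _ hp' hp ?_
    rw [abs_lt] at h5 h5' ⊢
    constructor <;> linarith [h5.1, h5.2, h5'.1, h5'.2]
  rw [hpos] at h3'
  obtain rfl : b = b' := by
    cases b <;> cases b' <;> simp at h3 h3' ⊢ <;> linarith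
  have hl := hS.lt e he
  have hl' := hS.lt e' he'
  have hen : e.en (!b) = e'.en (!b) := h2.symm.trans h2'
  obtain ⟨s, hs1, hs2⟩ : ∃ s, max e.lo e'.lo < s ∧ s < min e.hi e'.hi := by
    refine exists_between ?_
    cases b <;> simp at hen ⊢ <;> refine ⟨⟨?_, ?_⟩, ?_, ?_⟩ <;> linarith
  rw [max_lt_iff] at hs1
  rw [lt_min_iff] at hs2
  obtain rfl : e = e' := by
    refine hS.disj e he e' he' (fun l => if l = e.ax then s else e.pos) ?_ ?_
    · simp [Bar.In, rev_ne, hs1.1, hs2.1]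
    · simp [Bar.In, hax, hpos, rev_ne, hs1.2, hs2.2]
  exact (hUN B E hS).1 _ _ _ _ hX hY h1 h1'

/-- a room that touches a shadow is not left out -/
theorem sh_not (hUN : S_UN) (hS : Sys B E) {g : ℝ}
    (hg : ∀ x y, Lam B E x → Lam B E y → |x - y| < g → x = y) {I : Set Box} {e : Bar}
    (he : e ∈ E) {X Y : Box} (hY : IsCell B E Y) {q : Pt}
    (h : Sh B E I (g / 2) e X q) (hq : Y.Cl q) : Y ∉ I := by
  obtain ⟨b, -, h1, h2, h3, h4⟩ := h
  obtain ⟨h5, -⟩ := abs_of h3 h4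
  have hp : Lam B E e.pos := Or.inr (Or.inr ⟨e, he, rfl⟩)
  have hL := (hUN B E hS).2.1 Y hY e.ax.rev
  have h6 := hq e.ax.rev
  rw [abs_lt] at h5
  refine fun hI => h1 Y hI hY (cl_pt.2 ⟨h2 ▸ hq e.ax, ?_, ?_⟩)
  · by_contra h7
    rw [not_le] at h7
    refine h7.ne' (hg _ _ (hL false) hp (abs_lt.2 ⟨?_, ?_⟩)) <;>
      linarith [h5.1, h5.2, h6.1]
  · by_contra h7
    rw [not_le] at h7
    refine h7.ne (hg _ _ (hL true) hp (abs_lt.2 ⟨?_, ?_⟩)) <;>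
      linarith [h5.1, h5.2, h6.2]

end ASMA

open ASMA in
theorem s_ASM (hUN : S_UN) (hEX : S_EX) (hJ1 : S_J1) (hTCH : S_TCH) (hLGT : S_LGT) : S_ASM := by
  classical
  intro B E hS γ hγ I F M hM hF hI hMI hcov
  obtain ⟨g, hg0, hg⟩ := exists_gap B E
  choose! x hx hx' using fun (j : Bar × Bool) (hj : j ∈ M) =>
    key hUN hEX hLGT hS hγ (half_pos hg0) hI (hM j hj) j.2 (hMI j hj)
  let mid : Box → Pt := fun X k => (X.lo k + X.hi k) / 2
  have hmid : ∀ X ∈ F, X.In (mid X) := fun X hX k => by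
    have := (hF X hX).lt k
    constructor <;> simp only [mid] <;> linarith
  refine ⟨M.image x ∪ F.image mid,
    (card_union_le _ _).trans (add_le_add card_image_le card_image_le), ?_, fun t ht q hq => ?_⟩
  · intro y hy e he h
    rcases mem_union.1 hy with hy | hy
    · obtain ⟨j, hj, rfl⟩ := mem_image.1 hy
      obtain ⟨X, h1, h2⟩ := hx j hj
      exact h1.free _ h2 e he (h.mono hγ.le)
    · obtain ⟨X, hX, rfl⟩ := mem_image.1 hy
      exact (hF X hX).free _ (hmid X hX) e he (h.mono hγ.le)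
  · have step : ∀ X, IsCell B E X → X.Cl q → X ∉ I →
        (∃ y ∈ M.image x ∪ F.image mid, Lit E γ y q) ∨ ∃ e ∈ E, Sh B E I (g / 2) e X q := by
      intro X h1 h2 h3
      rcases hcov X h1 with h | h | ⟨j, hj, τ, h⟩
      · exact absurd h h3
      · exact Or.inl ⟨_, mem_union_right _ (mem_image_of_mem _ h), h1.lit hγ.le (hmid X h) h2⟩
      · rcases hx' j hj τ X h1 h t ht q hq h2 with h4 | h4
        · exact Or.inl ⟨_, mem_union_left _ (mem_image_of_mem _ hj), h4⟩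
        · exact Or.inr ⟨_, hM j hj, h4⟩
    have two : ∀ X Y, IsCell B E X → IsCell B E Y → X ≠ Y → X.Cl q → Y.Cl q → X ∉ I →
        ∃ y ∈ M.image x ∪ F.image mid, Lit E γ y q := by
      intro X Y h1 h2 h3 h4 h5 h6
      rcases step X h1 h4 h6 with h | ⟨e, he, h⟩
      · exact h
      rcases step Y h2 h5 (sh_not hUN hS hg he h2 h h5) with h' | ⟨e', he', h'⟩
      · exact h'
      exact absurd (sh_eq hUN hS hg he he' h1 h2 h h') h3
    obtain ⟨X, Y, h1, h2, h3, h4, h5⟩ := (hTCH B E hS).1 t ht q (hq.inn hγ)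
    by_cases h6 : X ∈ I
    · refine two Y X h2 h1 h3.symm h5 h4 fun h7 => ?_
      obtain ⟨u, hu, b, h8, h9⟩ := (hTCH B E hS).2.1 t ht q (hq.mono hγ.le) X Y h1 h2 h4 h5
      exact h3 (hI X h6 Y h7 u hu b b h8 h9)
    · exact two X Y h1 h2 h3 h4 h5 h6

end Pool.Agent.P.MP_5f84aa_co
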