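import Pool.Agent.P.MP_5f84aa_co.Defs

/-! Step COMB of the illumination project. -/

namespace Pool.Agent.P.MP_5f84aa_co

open Finset

namespace COMBA

theorem card_pairs {V : Type} [Fintype V] (R : V → V → Prop) [DecidableRel R] :
    ∑ a, (univ.filter (R a)).card = (univ.filter fun p : V × V => R p.1 p.2).card := by
  simp only [Finset.card_filter]
  rw [Fintype.sum_prod_type]

theorem two_mul_le {V J : Type} [Fintype V] [Fintype J] [DecidableEq V] {c : J → Bool → V}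
    {F : Finset V} (h : MG c F) {M : Finset J} (hM : Mt c M) : 2 * M.card ≤ Fintype.card V := by
  have := Finset.card_le_card_of_injOn (s := M ×ˢ (univ : Finset Bool)) (t := univ)
    (fun x => c x.1 x.2) (fun _ _ => by simp) (by
      rintro ⟨j, τ⟩ h1 ⟨j', τ'⟩ h2 e
      obtain rfl : j = j' := hM j (by simpa using h1) j' (by simpa using h2) τ τ' e
      have := h.ne j
      cases τ <;> cases τ' <;> simp_all)
  simpa [mul_comm] using this

theorem main (hTUT : S_TUT) (hALT : S_ALT) (hIND : S_IND) (m D : ℕ) (hm : 128 < m)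
    {V J W : Type} [Fintype V] [Fintype J] [Fintype W] [DecidableEq V] (c : J → Bool → V)
    (F : Finset V) (Nb : W → Finset V) (h : MG c F) (hF : F.card ≤ 4)
    (hN : ∀ w, (Nb w).card ≤ 8) (hW : Fintype.card W ≤ Fintype.card V)
    (hD : ∀ a, {v | Near c (2 * m) a v}.ncard ≤ D) :
    ∃ (I : Finset V) (M : Finset J), (∀ u ∈ I, ∀ v ∈ I, ∀ w, u ∈ Nb w → v ∈ Nb w → u = v) ∧
      (∀ v ∈ I, ¬ Cov c M v) ∧ (∀ v, v ∈ I ∨ v ∈ F ∨ Cov c M v) ∧
      ∃ t, 2 * (M.card + t) ≤ Fintype.card V ∧ (Fintype.card V ≤ 16 * D ∨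
        Fintype.card V ≤ 8 * (2 * (260 * (D * D)) + 1) * t) := by
  classical
  obtain ⟨M0, hM, -, hc⟩ := hTUT V J c F F ∅ h Subset.rfl (by simp)
  have hc' : ∀ v, v ∉ F → Cov c M0 v := fun v hv => hc v hv (by simp)
  have h2 := two_mul_le h hM
  by_cases hV : Fintype.card V ≤ 16 * D
  · exact ⟨∅, M0, by simp, by simp, fun v => Or.inr (or_iff_not_imp_left.2 (hc' v)), 0, h2,
      Or.inl hV⟩
  have hs := fun a => ((hIND.1 V J c h.le) (2 * m) a).2
  obtain ⟨cf, hcf⟩ : ∃ cf : V → V → Prop, ∀ u v, cf u v ↔ ∃ w, u ∈ Nb w ∧ v ∈ Nb w :=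
    ⟨_, fun _ _ => Iff.rfl⟩
  have cs : ∀ u v, cf u v → cf v u := fun u v e => by
    obtain ⟨w, a, b⟩ := (hcf _ _).1 e
    exact (hcf _ _).2 ⟨w, b, a⟩
  have hP : (univ.filter fun p : V × V => cf p.1 p.2).card ≤ 64 * Fintype.card V := by
    refine (Finset.card_le_card (t := univ.biUnion fun w => Nb w ×ˢ Nb w) fun p hp => ?_).trans
      ((Finset.card_biUnion_le_card_mul _ _ 64 fun w _ => ?_).trans ?_)
    · obtain ⟨w, a, b⟩ := (hcf _ _).1 (Finset.mem_filter.1 hp).2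
      exact Finset.mem_biUnion.2 ⟨w, mem_univ _, Finset.mem_product.2 ⟨a, b⟩⟩
    · rw [Finset.card_product]
      exact Nat.mul_le_mul (hN w) (hN w)
    · rw [Finset.card_univ, mul_comm]
      exact Nat.mul_le_mul_left _ hW
  have hB : ∀ a, (univ.filter (Near c (2 * m) a)).card ≤ D := fun a => by
    have := hD a
    rwa [← Set.ncard_coe_finset, Finset.coe_filter_univ]
  obtain ⟨A, hA⟩ : ∃ A : Finset V, ∀ a, a ∈ A ↔
      (univ.filter (cf a)).card ≤ 128 ∧ ∀ v ∈ F, ¬ Near c (2 * m) a v :=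
    ⟨univ.filter fun a => (univ.filter (cf a)).card ≤ 128 ∧ ∀ v ∈ F, ¬ Near c (2 * m) a v,
      fun a => by simp⟩
  have hA4 : Fintype.card V ≤ 4 * A.card := by
    have a1 : (univ.filter fun a => 129 ≤ (univ.filter (cf a)).card).card • 129 ≤
        64 * Fintype.card V :=
      (Finset.card_nsmul_le_sum _ (fun a => (univ.filter (cf a)).card) _
        fun a ha => (Finset.mem_filter.1 ha).2).trans ((Finset.sum_le_sum_of_subset
          (Finset.subset_univ _)).trans ((card_pairs cf).trans_le hP))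
    have a2 : (F.biUnion fun v => univ.filter (Near c (2 * m) v)).card ≤ 4 * D :=
      (Finset.card_biUnion_le_card_mul _ _ D fun v _ => hB v).trans (Nat.mul_le_mul_right _ hF)
    have a3 : (univ : Finset V) ⊆ A ∪ (univ.filter fun a => 129 ≤ (univ.filter (cf a)).card) ∪
        F.biUnion fun v => univ.filter (Near c (2 * m) v) := fun a _ => by
      by_contra e
      simp only [Finset.mem_union, Finset.mem_filter, mem_univ, true_and, Finset.mem_biUnion,
        not_or, not_exists, not_and, hA] at e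
      exact e.1.1 (by omega) fun v hv hn => e.2 v hv (hs _ _ hn)
    have a4 := (Finset.card_le_card a3).trans ((Finset.card_union_le _ _).trans
      (Nat.add_le_add_right (Finset.card_union_le _ _) _))
    rw [Finset.card_univ] at a4
    rw [smul_eq_mul] at a1
    omega
  obtain ⟨R, hR⟩ : ∃ R : V → V → Prop, ∀ a a', R a a' ↔ ∃ u u', Near c (2 * m) a u ∧
      Near c (2 * m) a' u' ∧ (u = u' ∨ cf u u') := ⟨_, fun _ _ => Iff.rfl⟩
  obtain ⟨T, hTA, hT, hTc⟩ := hIND.2 V A R (260 * (D * D)) (fun a a' e => by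
      obtain ⟨u, u', a1, a2, a3⟩ := (hR _ _).1 e
      exact (hR _ _).2 ⟨u', u, a2, a1, a3.imp Eq.symm (cs _ _)⟩) (by
      have a1 : ∑ a ∈ A, (A.filter (R a)).card ≤ ∑ a, (univ.filter (R a)).card :=
        (Finset.sum_le_sum fun a _ => Finset.card_le_card
          (Finset.filter_subset_filter _ (Finset.subset_univ _))).trans
          (Finset.sum_le_sum_of_subset (Finset.subset_univ _))
      have a2 : (univ.filter fun p : V × V => R p.1 p.2) ⊆
          ((univ : Finset V).diag ∪ univ.filter fun p : V × V => cf p.1 p.2).biUnion fun p =>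
            univ.filter (Near c (2 * m) p.1) ×ˢ univ.filter (Near c (2 * m) p.2) := fun p hp => by
        obtain ⟨u, u', b1, b2, b3⟩ := (hR _ _).1 (Finset.mem_filter.1 hp).2
        refine Finset.mem_biUnion.2 ⟨(u, u'), by simpa using b3, ?_⟩
        simpa using ⟨hs _ _ b1, hs _ _ b2⟩
      have a3 := (Finset.card_le_card a2).trans (Finset.card_biUnion_le_card_mul _ _ (D * D)
        fun p _ => by rw [Finset.card_product]; exact Nat.mul_le_mul (hB _) (hB _))
      have a4 := Finset.card_union_le (univ : Finset V).diag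
        (univ.filter fun p : V × V => cf p.1 p.2)
      rw [Finset.diag_card, Finset.card_univ] at a4
      rw [card_pairs R] at a1
      refine a1.trans (a3.trans ((Nat.mul_le_mul_right (D * D)
        (show _ ≤ 260 * A.card by omega)).trans_eq (by ring))))
  have hx : ∀ a, ∃ (b : V) (Out In : Finset J), a ∈ A → ¬ cf a b ∧ b ≠ a ∧ Out ⊆ M0 ∧
      In.card + 1 ≤ Out.card ∧ (∀ v, Cov c Out v → Near c (2 * m) a v) ∧ Cov c Out a ∧
      Cov c Out b ∧ ∀ v, Cov c In v ↔ Cov c Out v ∧ v ≠ a ∧ v ≠ b := fun a => by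
    by_cases ha : a ∈ A
    · obtain ⟨b, O, I, a1, a2⟩ := hALT V J c F M0 a m (univ.filter (cf a)) h hM hc'
        ((hA a).1 ha).2 (((hA a).1 ha).1.trans_lt hm)
      exact ⟨b, O, I, fun _ => ⟨by simpa using a1, a2⟩⟩
    · exact ⟨a, ∅, ∅, fun e => absurd e ha⟩
  choose b Out In hx using hx
  have hk : ∀ a ∈ T, ∀ a' ∈ T, ∀ u u', Cov c (Out a) u → Cov c (Out a') u' →
      (u = u' ∨ cf u u') → a = a' := fun a ha a' ha' u u' a1 a2 a3 =>
    hT a ha a' ha' ((hR _ _).2 ⟨u, u', (hx a (hTA ha)).2.2.2.2.1 u a1,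
      (hx a' (hTA ha')).2.2.2.2.1 u' a2, a3⟩)
  have hI : ∀ v ∈ T ∪ T.image b, ∃ a ∈ T, (v = a ∨ v = b a) ∧ Cov c (Out a) v := fun v hv => by
    rcases Finset.mem_union.1 hv with e | e
    · exact ⟨v, e, Or.inl rfl, (hx v (hTA e)).2.2.2.2.2.1⟩
    · obtain ⟨a, ha, rfl⟩ := Finset.mem_image.1 e
      exact ⟨a, ha, Or.inr rfl, (hx a (hTA ha)).2.2.2.2.2.2.1⟩
  refine ⟨T ∪ T.image b, (M0 \ T.biUnion Out) ∪ T.biUnion In, fun u hu v hv w a1 a2 => ?_,
    fun v hv => ?_, fun v => ?_, T.card, ?_, Or.inr (by nlinarith)⟩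
  · obtain ⟨a, ha, b1, b2⟩ := hI u hu
    obtain ⟨a', ha', b3, b4⟩ := hI v hv
    have e : cf u v := (hcf _ _).2 ⟨w, a1, a2⟩
    obtain rfl := hk a ha a' ha' u v b2 b4 (Or.inr e)
    have n := (hx a (hTA ha)).1
    rcases b1 with rfl | rfl <;> rcases b3 with b3 | b3
    · exact b3.symm
    · exact absurd (b3 ▸ e) n
    · exact absurd (cs _ _ (b3 ▸ e)) n
    · exact b3.symm
  · obtain ⟨a, ha, b1, b2⟩ := hI v hv
    rintro ⟨j, hj, τ, e⟩
    rcases Finset.mem_union.1 hj with hj | hj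
    · obtain ⟨j', hj', τ', e'⟩ := b2
      obtain ⟨c1, c2⟩ := Finset.mem_sdiff.1 hj
      obtain rfl := hM j c1 j' ((hx a (hTA ha)).2.2.1 hj') τ τ' (e.trans e'.symm)
      exact c2 (Finset.mem_biUnion.2 ⟨a, ha, hj'⟩)
    · obtain ⟨a', ha', hj⟩ := Finset.mem_biUnion.1 hj
      obtain ⟨c1, c2, c3⟩ := ((hx a' (hTA ha')).2.2.2.2.2.2.2 v).1 ⟨j, hj, τ, e⟩
      obtain rfl := hk a ha a' ha' v v b2 c1 (Or.inl rfl)
      exact b1.elim c2 c3
  · by_cases hv : v ∈ F
    · exact Or.inr (Or.inl hv)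
    obtain ⟨j, hj, τ, e⟩ := hc' v hv
    by_cases hO : j ∈ T.biUnion Out
    · obtain ⟨a, ha, hO⟩ := Finset.mem_biUnion.1 hO
      by_cases e1 : v = a
      · exact Or.inl (Finset.mem_union_left _ (e1 ▸ ha))
      by_cases e2 : v = b a
      · exact Or.inl (Finset.mem_union_right _ (e2 ▸ Finset.mem_image_of_mem b ha))
      obtain ⟨j', hj', e'⟩ := ((hx a (hTA ha)).2.2.2.2.2.2.2 v).2 ⟨⟨j, hO, τ, e⟩, e1, e2⟩
      exact Or.inr (Or.inr ⟨j', Finset.mem_union_right _ (Finset.mem_biUnion.2 ⟨a, ha, hj'⟩), e'⟩)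
    · exact Or.inr (Or.inr ⟨j, Finset.mem_union_left _ (Finset.mem_sdiff.2 ⟨hj, hO⟩), τ, e⟩)
  · have a1 := Finset.card_union_le (M0 \ T.biUnion Out) (T.biUnion In)
    have a2 := Finset.card_sdiff_add_card_eq_card (s := T.biUnion Out) (t := M0)
      (Finset.biUnion_subset.2 fun a ha => (hx a (hTA ha)).2.2.1)
    have a3 : (T.biUnion Out).card = ∑ a ∈ T, (Out a).card :=
      Finset.card_biUnion fun a ha a' ha' e => Finset.disjoint_left.2 fun j b1 b2 =>
        e (hk a ha a' ha' _ _ ⟨j, b1, true, rfl⟩ ⟨j, b2, true, rfl⟩ (Or.inl rfl))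
    have a4 : (T.biUnion In).card ≤ ∑ a ∈ T, (In a).card := Finset.card_biUnion_le
    have a5 : ∑ a ∈ T, ((In a).card + 1) ≤ ∑ a ∈ T, (Out a).card :=
      Finset.sum_le_sum fun a ha => (hx a (hTA ha)).2.2.2.1
    rw [Finset.sum_add_distrib, Finset.sum_const, smul_eq_mul, mul_one] at a5
    omega

theorem fin (hTUT : S_TUT) (hALT : S_ALT) (hIND : S_IND) (m : ℕ) (hm : 128 < m) : S_COMB := by
  obtain ⟨D, hD⟩ : ∃ D : ℕ, D = 5 ^ (2 * m) := ⟨_, rfl⟩
  obtain ⟨L, hL⟩ : ∃ L : ℕ, L = 8 * (2 * (260 * (D * D)) + 1) := ⟨_, rfl⟩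
  have h8 : (8 : ℝ) ≤ L := by exact_mod_cast (by omega : 8 ≤ L)
  have h0 : (0 : ℝ) < L := by linarith
  have h1 : 1 / (L : ℝ) < 1 / 2 := one_div_lt_one_div_of_lt (by norm_num) (by linarith)
  refine ⟨1 / L, by positivity, h1, 8 * D, fun V J W _ _ _ _ c F Nb h hF hN hW => ?_⟩
  obtain ⟨I, M, a1, a2, a3, t, a4, a5⟩ := main hTUT hALT hIND m D hm c F Nb h hF hN hW
    fun a => hD ▸ (hIND.1 V J c h.le (2 * m) a).1
  refine ⟨I, M, a1, a2, a3, ?_⟩
  have b1 : 2 * ((M.card : ℝ) + t) ≤ Fintype.card V := by exact_mod_cast a4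
  have b2 : (0 : ℝ) ≤ t := Nat.cast_nonneg _
  have b3 : (0 : ℝ) ≤ D := Nat.cast_nonneg _
  rcases a5 with e | e
  · have b4 : (Fintype.card V : ℝ) ≤ 16 * D := by exact_mod_cast e
    have b5 : 0 ≤ (1 / 2 - 1 / (L : ℝ)) * Fintype.card V :=
      mul_nonneg (by linarith) (Nat.cast_nonneg _)
    linarith
  · rw [← hL] at e
    have b4 : (Fintype.card V : ℝ) ≤ L * t := by exact_mod_cast e
    have b5 : 1 / (L : ℝ) * Fintype.card V ≤ t := by
      rw [one_div, inv_mul_le_iff₀ h0]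
      exact b4
    linarith

end COMBA

theorem s_COMB (hTUT : S_TUT) (hALT : S_ALT) (hIND : S_IND) : S_COMB :=
  COMBA.fin hTUT hALT hIND 129 (by norm_num)

end Pool.Agent.P.MP_5f84aa_co
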