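import Pool.Agent.P.MP_5f84aa_co.Defs

/-! Step EX of the illumination project. -/

namespace Pool.Agent.P.MP_5f84aa_co

open Finset

namespace EXA

open Function

variable {B : ℝ} {E : Finset Bar}

/-- the union of the closed bars -/
def U (E : Finset Bar) (p : Pt) : Prop := ∃ e ∈ E, e.On 0 p

theorem closed_U (E : Finset Bar) : IsClosed {p | U E p} := by
  have : {p | U E p} = ⋃ e ∈ E, {p : Pt | e.On 0 p} := by
    ext p
    simp [U]
  rw [this]
  refine isClosed_biUnion_finset fun e _ => ?_
  exact (isClosed_eq (continuous_apply _) continuous_const).inter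
    ((isClosed_le continuous_const (continuous_apply _)).inter
      (isClosed_le (continuous_apply _) continuous_const))

theorem ray (hB : 0 < B) {y : Pt} (k : Fin 2) (b : Bool) (h1 : -B < y k) (h2 : y k < B)
    (hy : ¬ U E y) : ∃ t, 0 < sg b * (t - y k) ∧ -B ≤ t ∧ t ≤ B ∧
      (t = sg b * B ∨ U E (update y k t)) ∧
      ∀ s, 0 ≤ sg b * (s - y k) → sg b * s < sg b * t → ¬ U E (update y k s) := by
  have hc : IsCompact (Set.Icc (-B) B ∩ ({s | 0 ≤ sg b * (s - y k)} ∩
      ({sg b * B} ∪ {s | U E (update y k s)}))) := by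
    refine isCompact_Icc.inter_right ((isClosed_le continuous_const (by fun_prop)).inter
      (isClosed_singleton.union ?_))
    exact (closed_U E).preimage (continuous_const.update k continuous_id)
  obtain ⟨t, ⟨⟨t1, t2⟩, t3, t4⟩, ht⟩ := hc.exists_isMinOn (f := fun s => sg b * s)
    ⟨sg b * B, by cases b <;> simp [hB.le], by cases b <;> simp <;> linarith, Or.inl rfl⟩
    (by fun_prop)
  have t3' : 0 ≤ sg b * (t - y k) := t3
  refine ⟨t, lt_of_le_of_ne t3' fun h => ?_, t1, t2, t4, fun s s1 s2 s3 => ?_⟩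
  · have e : t = y k := by cases b <;> simp at h <;> linarith
    rcases t4 with t4 | t4
    · have t5 : t = sg b * B := t4
      cases b <;> simp at t5 <;> linarith
    · have t5 : U E (update y k t) := t4
      rw [e, update_eq_self] at t5
      exact hy t5
  · refine absurd (ht ⟨?_, s1, Or.inr s3⟩) (not_le.2 s2)
    cases b <;> simp at s1 s2 <;> constructor <;> linarith

/-- the box spanned by the four rays from `y` -/
structure Ray (B : ℝ) (E : Finset Bar) (y : Pt) (X : Box) : Prop where
  inn : X.In y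
  box : ∀ k, -B ≤ X.lo k ∧ X.hi k ≤ B
  free : ∀ k s, X.lo k < s → s < X.hi k → ¬ U E (update y k s)
  stop : ∀ k b, X.bd k b = sg b * B ∨ U E (update y k (X.bd k b))

theorem exists_ray (hB : 0 < B) {y : Pt} (h : ∀ k, -B < y k ∧ y k < B) (hy : ¬ U E y) :
    ∃ X, Ray B E y X := by
  choose f f1 f2 f3 f4 f5 using fun k b => ray hB k b (h k).1 (h k).2 hy
  refine ⟨⟨fun k => f k false, fun k => f k true⟩, fun k => ?_, fun k => ⟨f2 k _, f3 k _⟩,
    fun k s s1 s2 => ?_, fun k b => ?_⟩
  · have a1 := f1 k false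
    have a2 := f1 k true
    simp only [sg_true, sg_false] at a1 a2
    constructor <;> dsimp only <;> linarith
  · dsimp only at s1 s2
    rcases le_total (y k) s with a | a
    · exact f5 k true s (by simpa using a) (by simpa using s2)
    · exact f5 k false s (by simpa using a) (by simpa using s1)
  · cases b
    exacts [f4 k false, f4 k true]

theorem move {y p l h : ℝ} (h0 : p ≠ y) (h1 : l < p) (h2 : p < h) :
    ∃ s ∈ Set.uIcc y p, l < s ∧ s < h ∧ |s - y| < |p - y| := by
  rcases h0.lt_or_gt with a | a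
  · have b1 : p < min y ((p + h) / 2) := lt_min a (by linarith)
    have b2 := min_le_left y ((p + h) / 2)
    have b3 := min_le_right y ((p + h) / 2)
    refine ⟨min y ((p + h) / 2), Set.mem_uIcc.2 (Or.inr ⟨b1.le, b2⟩), by linarith, by linarith, ?_⟩
    rw [abs_of_nonpos (by linarith), abs_of_nonpos (by linarith)]
    linarith
  · have b1 : max y ((l + p) / 2) < p := max_lt a (by linarith)
    have b2 := le_max_left y ((l + p) / 2)
    have b3 := le_max_right y ((l + p) / 2)
    refine ⟨max y ((l + p) / 2), Set.mem_uIcc.2 (Or.inl ⟨b2, b1.le⟩), by linarith, by linarith, ?_⟩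
    rw [abs_of_nonneg (by linarith), abs_of_nonneg (by linarith)]
    linarith

theorem Ray.off (hS : Sys B E) {y : Pt} {X : Box} (h : Ray B E y X) {z : Pt} (hz : X.In z) :
    ¬ U E z := by
  intro hU
  have hc : IsCompact ((Set.univ.pi fun k => Set.uIcc (y k) (z k)) ∩ {p | U E p}) :=
    (isCompact_univ_pi fun k => isCompact_uIcc).inter_right (closed_U E)
  obtain ⟨p, ⟨p1, e, he, p2⟩, hp⟩ := hc.exists_isMinOn (f := fun p : Pt => ∑ k, |p k - y k|)
    ⟨z, fun k _ => Set.right_mem_uIcc, hU⟩ (by fun_prop)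
  have hin : X.In p := fun k => by
    have a1 := h.inn k
    have a2 := hz k
    rcases Set.mem_uIcc.1 (p1 k trivial) with a | a <;> constructor <;>
      linarith [a1.1, a1.2, a2.1, a2.2, a.1, a.2]
  have hne : ∀ k, p k ≠ y k := fun k a => by
    refine h.free k.rev (p k.rev) (hin _).1 (hin _).2 ⟨e, he, ?_⟩
    rwa [show update y k.rev (p k.rev) = p from
      pt_ext k (by rw [update_of_ne (ne_rev k), a]) (by rw [update_self])]
  have ht : ∃ t ∈ E, t.In p := by
    rcases p2.cases with a | ⟨b, a⟩
    · exact ⟨e, he, a⟩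
    rcases hS.ends e he b with c | ⟨t, t1, -, t2⟩
    · have a1 := hin e.ax
      have a2 := h.box e.ax
      rw [a, Bar.pt_ax, c] at a1
      cases b <;> simp at a1 <;> linarith [a1.1, a1.2, a2.1, a2.2]
    · exact ⟨t, t1, a ▸ t2⟩
  obtain ⟨t, t1, t2, t3, t4⟩ := ht
  obtain ⟨s, s1, s2, s3, s4⟩ := move (hne t.ax) t3 t4
  refine absurd (isMinOn_iff.1 hp (update p t.ax s)
    ⟨fun k _ => ?_, t, t1, Bar.In.on ⟨?_, ?_, ?_⟩⟩)
    (not_le.2 (Finset.sum_lt_sum (fun k _ => ?_) ⟨t.ax, mem_univ _, ?_⟩))
  · rcases eq_or_ne k t.ax with rfl | a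
    · rw [update_self]
      exact Set.uIcc_subset_uIcc_left (p1 _ trivial) s1
    · rw [update_of_ne a]
      exact p1 k trivial
  · rw [update_of_ne (rev_ne _), t2]
  · rwa [update_self]
  · rwa [update_self]
  · rcases eq_or_ne k t.ax with rfl | a
    · rw [update_self]
      exact s4.le
    · rw [update_of_ne a]
  · rwa [update_self]

theorem in_update {X : Box} {y : Pt} (h : X.In y) (k : Fin 2) {s : ℝ} (h1 : X.lo k < s)
    (h2 : s < X.hi k) : X.In (update y k s) := fun l => by
  rcases eq_or_ne l k with rfl | a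
  · rw [update_self]
    exact ⟨h1, h2⟩
  · rw [update_of_ne a]
    exact h l

theorem Ray.cell (hS : Sys B E) {y : Pt} {X : Box} (h : Ray B E y X) : IsCell B E X := by
  have hlt : ∀ k, X.lo k < X.hi k := fun k => (h.inn k).1.trans (h.inn k).2
  refine ⟨hlt, h.box, fun q hq e he a => h.off hS hq ⟨e, he, a⟩, fun k b => ?_⟩
  by_cases hb : X.bd k b = sg b * B
  · exact Or.inl hb
  refine Or.inr fun q q1 q2 q3 => ?_
  have hw := (h.stop k b).resolve_left hb
  have hy := in_update h.inn k.rev q2 q3
  obtain ⟨Y, hY⟩ := exists_ray (E := E) hS.pos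
    (fun l => ⟨(h.box l).1.trans_lt (hy l).1, (hy l).2.trans_le (h.box l).2⟩) (h.off hS hy)
  have hsub : ∀ l, Y.lo l ≤ X.lo l ∧ X.hi l ≤ Y.hi l := fun l => by
    have a1 := hY.inn l
    have a2 := hy l
    have a3 := h.box l
    refine ⟨not_lt.1 fun a => ?_, not_lt.1 fun a => ?_⟩
    · rcases hY.stop l false with c | c
      · simp at c
        linarith [a3.1]
      · exact h.off hS (in_update hy l a (a1.1.trans a2.2)) c
    · rcases hY.stop l true with c | c
      · simp at c
        linarith [a3.2]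
      · exact h.off hS (in_update hy l (a2.1.trans a1.2) a) c
  have hyY : Y.In y := fun l =>
    ⟨(hsub l).1.trans_lt (h.inn l).1, (h.inn l).2.trans_le (hsub l).2⟩
  have heq : Y.bd k b = X.bd k b := by
    by_contra a
    have a1 := hsub k
    have a2 := hlt k
    refine hY.off hS (in_update hyY k ?_ ?_) hw
    · cases b
      · exact lt_of_le_of_ne a1.1 a
      · exact a1.1.trans_lt a2
    · cases b
      · exact a2.trans_le a1.2
      · exact lt_of_le_of_ne a1.2 (Ne.symm a)
  have c := hY.stop k b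
  rw [heq] at c
  have c' := c.resolve_left hb
  rwa [show update (update y k.rev (q k.rev)) k (X.bd k b) = q from
    pt_ext k (by rw [update_self, q1]) (by rw [update_of_ne (rev_ne k), update_self])] at c'

end EXA

theorem s_EX (hUN : S_UN) : S_EX := by
  intro B E hS q ω hq
  choose g g0 g1 using exists_gap_at B E
  obtain ⟨ε, e0, e1⟩ : ∃ ε > 0, ∀ k, ε < g (q k) := by
    refine ⟨min (g (q 0)) (g (q 1)) / 2, half_pos (lt_min (g0 _) (g0 _)), ?_⟩
    have a := lt_min (g0 (q 0)) (g0 (q 1))
    rw [Fin.forall_fin_two]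
    constructor <;> linarith [min_le_left (g (q 0)) (g (q 1)), min_le_right (g (q 0)) (g (q 1))]
  have gap : ∀ k x, Lam B E x → q k - ε ≤ x → x ≤ q k + ε → x = q k := fun k x hx a1 a2 =>
    g1 _ x hx (abs_lt.2 ⟨by linarith [e1 k], by linarith [e1 k]⟩)
  have key := EXA.exists_ray (E := E) (y := fun k => q k + sg (ω k) * ε) hS.pos
    (fun k => ?_) ?_
  · obtain ⟨X, hX⟩ := key
    have hc := hX.cell hS
    refine ⟨X, hc, fun k => ?_⟩
    have a1 := hX.inn k
    have a2 := gap k _ ((hUN B E hS).2.1 X hc k false)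
    have a3 := gap k _ ((hUN B E hS).2.1 X hc k true)
    rw [Box.bd_false] at a2
    rw [Box.bd_true] at a3
    cases hω : ω k <;> simp only [hω, sg_true, sg_false] at a1 <;>
      simp only [Bool.false_eq_true, if_false, if_true]
    · refine ⟨by linarith [a1.1], not_lt.1 fun a => ?_⟩
      linarith [a3 (by linarith [a1.2]) (by linarith)]
    · refine ⟨not_lt.1 fun a => ?_, by linarith [a1.2]⟩
      linarith [a2 (by linarith) (by linarith [a1.1])]
  · have a1 := hq k
    have a2 := gap k (-B) (Or.inr (Or.inl rfl))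
    have a3 := gap k B (Or.inl rfl)
    cases hω : ω k <;> simp only [hω, sq, Bool.false_eq_true, if_false, if_true] at a1 <;>
      simp only [sg_true, sg_false]
    · refine ⟨not_le.1 fun a => ?_, by linarith [a1.2]⟩
      linarith [a2 (by linarith) (by linarith [a1.1]), a1.1]
    · refine ⟨by linarith [a1.1], not_le.1 fun a => ?_⟩
      linarith [a3 (by linarith [a1.2]) (by linarith), a1.2]
  · rintro ⟨e, he, a, -⟩
    have a1 := gap e.ax.rev e.pos (Or.inr (Or.inr ⟨e, he, rfl⟩))
    dsimp only at a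
    cases hω : ω e.ax.rev <;> simp only [hω, sg_true, sg_false] at a <;>
      linarith [a1 (by linarith) (by linarith)]

end Pool.Agent.P.MP_5f84aa_co
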