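import Pool.Agent.P.MP_5f84aa_co.Defs

/-! Step IND of the illumination project. -/

namespace Pool.Agent.P.MP_5f84aa_co

open Finset

namespace INDA

theorem cons {V J : Type} {c : J → Bool → V} {r : ℕ} {u w v : V} (h : Adj c u w)
    (h' : Near c r w v) : Near c (r + 1) u v := by
  induction r generalizing v with
  | zero =>
    have e : w = v := h'
    exact (Near.refl c 0 u).step (e ▸ h)
  | succ r ih =>
    rcases h' with h' | ⟨x, h1, h2⟩
    · exact Or.inl (ih h')
    · exact (ih h1).step h2

theorem symm {V J : Type} {c : J → Bool → V} {r : ℕ} {u v : V} (h : Near c r u v) :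
    Near c r v u := by
  induction r generalizing v with
  | zero =>
    have e : u = v := h
    exact e ▸ Near.refl c 0 u
  | succ r ih =>
    rcases h with h | ⟨x, h1, h2⟩
    · exact Or.inl (ih h)
    · exact cons h2.symm (ih h1)

open Classical in
theorem ball {V J : Type} [Fintype V] [Fintype J] [DecidableEq V] (c : J → Bool → V)
    (h : ∀ v, dg c v ≤ 4) (r : ℕ) (a : V) :
    (univ.filter fun v => Near c r a v).card ≤ 5 ^ r := by
  induction r with
  | zero =>
    rw [pow_zero, card_le_one]
    intro x hx y hy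
    have e1 : a = x := (mem_filter.1 hx).2
    have e2 : a = y := (mem_filter.1 hy).2
    exact e1.symm.trans e2
  | succ r ih =>
    have hn : ∀ w, (univ.filter fun v => Adj c w v).card ≤ 4 := fun w => by
      refine le_trans ?_ (h w)
      refine le_trans (card_le_card ?_) (card_image_le (f := fun p : J × Bool => c p.1 (!p.2)))
      intro v hv
      obtain ⟨j, τ, h1, h2⟩ := (mem_filter.1 hv).2
      exact mem_image.2 ⟨(j, τ), by simpa using h1, h2⟩
    have hs : (univ.filter fun v => Near c (r + 1) a v) ⊆ (univ.filter fun v => Near c r a v) ∪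
        (univ.filter fun v => Near c r a v).biUnion fun w => univ.filter fun v => Adj c w v := by
      intro v hv
      rcases (mem_filter.1 hv).2 with h1 | ⟨w, h1, h2⟩
      · exact mem_union_left _ (mem_filter.2 ⟨mem_univ _, h1⟩)
      · exact mem_union_right _ (mem_biUnion.2 ⟨w, mem_filter.2 ⟨mem_univ _, h1⟩,
          mem_filter.2 ⟨mem_univ _, h2⟩⟩)
    have h1 := (card_le_card hs).trans (card_union_le _ _)
    have h2 := card_biUnion_le_card_mul (univ.filter fun v => Near c r a v)
      (fun w => univ.filter fun v => Adj c w v) 4 fun w _ => hn w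
    rw [pow_succ]
    omega

theorem indep {V : Type} [DecidableEq V] (A : Finset V) (R : V → V → Prop) [DecidableRel R]
    (K : ℕ) (hR : ∀ u v, R u v → R v u)
    (hs : ∑ a ∈ A, (A.filter (R a)).card ≤ K * A.card) :
    ∃ T ⊆ A, (∀ u ∈ T, ∀ v ∈ T, R u v → u = v) ∧ A.card ≤ 2 * (2 * K + 1) * T.card := by
  set A' := A.filter fun a => (A.filter (R a)).card ≤ 2 * K with hA'
  have h1 : A.card ≤ 2 * A'.card := by
    have e := card_filter_add_card_filter_not (s := A) fun a => (A.filter (R a)).card ≤ 2 * K
    set B := A.filter fun a => ¬ (A.filter (R a)).card ≤ 2 * K with hB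
    have h2 : B.card * (2 * K + 1) ≤ ∑ a ∈ B, (A.filter (R a)).card := by
      rw [← smul_eq_mul]
      exact card_nsmul_le_sum B _ _ fun a ha => Nat.succ_le_of_lt (not_le.1 (mem_filter.1 ha).2)
    have h3 : ∑ a ∈ B, (A.filter (R a)).card ≤ ∑ a ∈ A, (A.filter (R a)).card :=
      sum_le_sum_of_subset (filter_subset _ _)
    rw [← hA'] at e
    by_contra hlt
    have h4 : A.card < 2 * B.card := by omega
    nlinarith
  obtain ⟨T, ⟨hT1, hT2⟩, hmax⟩ := Set.exists_max_image
    {T : Finset V | T ⊆ A' ∧ ∀ u ∈ T, ∀ v ∈ T, R u v → u = v} card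
    ((A'.powerset.finite_toSet).subset fun T hT => by simpa using hT.1) ⟨∅, by simp⟩
  refine ⟨T, hT1.trans (filter_subset _ _), hT2, ?_⟩
  have h2 : A' ⊆ T ∪ T.biUnion fun t => A.filter (R t) := by
    intro a ha
    by_contra hn
    rw [mem_union, not_or, mem_biUnion] at hn
    have h3 : ∀ t ∈ T, ¬ R t a := fun t ht h =>
      hn.2 ⟨t, ht, mem_filter.2 ⟨(mem_filter.1 ha).1, h⟩⟩
    have h4 := hmax (insert a T) ⟨insert_subset ha hT1, ?_⟩
    · rw [card_insert_of_notMem hn.1] at h4
      omega
    · intro u hu v hv h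
      rcases mem_insert.1 hu with e | hu' <;> rcases mem_insert.1 hv with e' | hv'
      · exact e.trans e'.symm
      · exact (h3 v hv' (hR _ _ (e ▸ h))).elim
      · exact (h3 u hu' (e' ▸ h)).elim
      · exact hT2 u hu' v hv' h
  have h3 := (card_le_card h2).trans (card_union_le _ _)
  have h4 := card_biUnion_le_card_mul T (fun t => A.filter (R t)) (2 * K)
    fun t ht => (mem_filter.1 (hT1 ht)).2
  nlinarith

end INDA

theorem s_IND : S_IND := by
  classical
  refine ⟨fun V J _ _ _ c h r a => ⟨?_, fun v => INDA.symm⟩, fun V _ A R _ K => INDA.indep A R K⟩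
  have e : {v | Near c r a v} = ↑(univ.filter fun v => Near c r a v) := by
    ext v
    simp
  rw [e, Set.ncard_coe_finset]
  exact INDA.ball c h r a

end Pool.Agent.P.MP_5f84aa_co
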