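import Pool.Agent.P.MP_5f84aa_co.Defs

/-! Step J1 of the illumination project. -/

namespace Pool.Agent.P.MP_5f84aa_co

open Finset

namespace J1A

/-- a point with two given coordinates -/
theorem exists_pt (k : Fin 2) (s t : ℝ) : ∃ q : Pt, q k = s ∧ q k.rev = t :=
  ⟨fun l => if l = k then s else t, if_pos rfl, if_neg (rev_ne k)⟩

/-- no end of a bar along the side of a room is strictly inside the side -/
theorem no_end {B : ℝ} {E : Finset Bar} (hS : Sys B E) {X : Box} (hX : IsCell B E X) {e : Bar}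
    (he : e ∈ E) (h1 : X.lo e.ax.rev ≤ e.pos) (h2 : e.pos ≤ X.hi e.ax.rev) (b : Bool)
    (h3 : X.lo e.ax < e.en b) (h4 : e.en b < X.hi e.ax) : False := by
  obtain ⟨h5, h6⟩ := hX.box e.ax
  rcases hS.ends e he b with h | ⟨t, ht, hax, g1, g2, g3⟩
  · cases b <;> simp only [sg_true, sg_false] at h <;> linarith
  · have hk : t.ax = e.ax.rev := eq_rev_of_ne hax
    rw [hk, Bar.pt_rev] at g2 g3
    rw [hk, Fin.rev_rev, Bar.pt_ax] at g1
    have h7 := hX.lt e.ax.rev
    obtain ⟨s, s1, s2⟩ := exists_between (show max t.lo (X.lo e.ax.rev) <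
        min t.hi (X.hi e.ax.rev) by
      rw [max_lt_iff, lt_min_iff, lt_min_iff]
      exact ⟨⟨by linarith, by linarith⟩, by linarith, h7⟩)
    rw [max_lt_iff] at s1
    rw [lt_min_iff] at s2
    obtain ⟨q, q1, q2⟩ := exists_pt e.ax (e.en b) s
    refine hX.free q ((forall_ax e.ax).2 ?_) t ht ?_
    · rw [q1, q2]
      exact ⟨⟨h3, h4⟩, s1.2, s2.2⟩
    · rw [Bar.On, hk, Fin.rev_rev, q1, q2, add_zero, sub_zero]
      exact ⟨g1, s1.1.le, s2.1.le⟩

end J1A

theorem s_J1 : S_J1 := by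
  intro B E hS X hX e he b τ hJ
  obtain ⟨j1, j2⟩ := jc_iff.1 hJ
  have h1 : X.lo e.ax.rev ≤ e.pos := by
    split_ifs at j2
    exacts [j2.1, j2.1.le]
  have h2 : e.pos ≤ X.hi e.ax.rev := by
    split_ifs at j2
    exacts [j2.2.le, j2.2]
  have hT := J1A.no_end hS hX he h1 h2
  have h3 := hS.lt e he
  have h4 : X.bd e.ax b = e.en b ∧ e.lo ≤ X.lo e.ax ∧ X.hi e.ax ≤ e.hi := by
    cases b
    · simp only [Bool.false_eq_true, if_false] at j1
      have h5 : X.lo e.ax = e.lo := j1.1.eq_of_not_lt fun h => hT false h j1.2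
      exact ⟨h5, h5.ge, not_lt.1 fun h => hT true (h5.trans_lt h3) h⟩
    · simp only [if_true] at j1
      have h5 : e.hi = X.hi e.ax := j1.2.eq_of_not_lt fun h => hT true j1.1 h
      exact ⟨h5.symm, not_lt.1 fun h => hT false h (h3.trans_eq h5), h5.ge⟩
  refine ⟨h4.1, ?_, h4.2⟩
  have h6 : X.lo e.ax.rev < e.pos → e.pos < X.hi e.ax.rev → False := fun a1 a2 => by
    obtain ⟨s, s1, s2⟩ := exists_between (hX.lt e.ax)
    obtain ⟨q, q1, q2⟩ := J1A.exists_pt e.ax s e.pos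
    refine hX.free q ((forall_ax e.ax).2 ?_) e he ?_
    · rw [q1, q2]
      exact ⟨⟨s1, s2⟩, a1, a2⟩
    · rw [Bar.On, q1, q2, add_zero, sub_zero]
      exact ⟨rfl, by linarith [h4.2.1], by linarith [h4.2.2]⟩
  cases τ
  · simp only [Bool.false_eq_true, if_false] at j2
    exact (h2.eq_of_not_lt (h6 j2.1)).symm
  · simp only [if_true] at j2
    exact h1.eq_of_not_lt fun h => h6 h j2.2

end Pool.Agent.P.MP_5f84aa_co
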