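import Pool.Agent.P.MP_5f84aa_co.Defs

/-! Step J2 of the illumination project. -/

namespace Pool.Agent.P.MP_5f84aa_co

open Finset

namespace J2A

theorem share {B : ℝ} {E : Finset Bar} (h : Sys B E) {e t : Bar} (he : e ∈ E) (ht : t ∈ E)
    (hax : t.ax = e.ax) (hp : t.pos = e.pos) (h1 : e.lo < t.hi) (h2 : t.lo < e.hi) : e = t := by
  have h3 := h.lt e he
  have h4 := h.lt t ht
  have h5 : max e.lo t.lo < min e.hi t.hi := by
    simp only [max_lt_iff, lt_min_iff]
    exact ⟨⟨h3, h2⟩, h1, h4⟩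
  obtain ⟨s, s1, s2⟩ := exists_between h5
  rw [max_lt_iff] at s1
  rw [lt_min_iff] at s2
  refine h.disj e he t ht (fun l => if l = e.ax then s else e.pos) ?_ ?_
  · simp only [Bar.In, if_neg (rev_ne _), if_true, true_and]
    exact ⟨s1.1, s2.1⟩
  · simp only [Bar.In, hax, hp, if_neg (rev_ne _), if_true, true_and]
    exact ⟨s1.2, s2.2⟩

end J2A

theorem s_J2 (hJ1 : S_J1) : S_J2 := by
  intro B E h X hX e he e' he' b τ b' τ' hj hj' hom
  obtain ⟨a1, a2, -, -⟩ := hJ1 B E h X hX e he b τ hj
  obtain ⟨b1, b2, -, -⟩ := hJ1 B E h X hX e' he' b' τ' hj'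
  have o1 := congrFun hom e.ax
  have o2 := congrFun hom e.ax.rev
  rw [Bar.om_ax] at o1
  rw [Bar.om_rev] at o2
  have l1 := h.lt e he
  have l2 := h.lt e' he'
  rcases eq_or_rev e.ax e'.ax with hax | hax
  · rw [← hax, Bar.om_ax, Bool.not_inj_iff] at o1
    rw [← hax, Bar.om_rev] at o2
    subst o1 o2
    rw [hax, a1] at b1
    rw [hax, a2] at b2
    refine ⟨?_, rfl, rfl⟩
    cases b
    · rw [Bar.en_false, Bar.en_false] at b1
      exact J2A.share h he he' hax b2.symm (by linarith) (by linarith)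
    · rw [Bar.en_true, Bar.en_true] at b1
      exact J2A.share h he he' hax b2.symm (by linarith) (by linarith)
  · exfalso
    have hax' : e.ax = e'.ax.rev := by rw [hax, Fin.rev_rev]
    rw [hax', Bar.om_rev] at o1
    rw [← hax, Bar.om_ax] at o2
    subst o1 o2
    rw [Bool.not_not, ← hax', a1] at b2
    rw [Bool.not_not, ← hax, b1] at a2
    obtain ⟨c1, c2, -, -⟩ := h.box e' he'
    rcases h.ends e he b with h1 | ⟨t, ht, h1, h2, h3, h4⟩
    · rw [b2] at h1
      cases b
      · rw [sg_false] at h1; linarith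
      · rw [sg_true] at h1; linarith
    · have h5 := eq_rev_of_ne h1
      rw [h5, Fin.rev_rev, Bar.pt_ax, b2] at h2
      rw [h5, Bar.pt_rev, ← a2] at h3 h4
      have h6 : e' = t := by
        cases b'
        · rw [Bar.en_false] at h3 h4
          exact J2A.share h he' ht (h5.trans hax.symm) h2.symm h4 (by linarith)
        · rw [Bar.en_true] at h3 h4
          exact J2A.share h he' ht (h5.trans hax.symm) h2.symm (by linarith) h3
      subst h6
      cases b'
      · exact lt_irrefl _ h3
      · exact lt_irrefl _ h4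

end Pool.Agent.P.MP_5f84aa_co
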