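import Pool.Agent.P.MP_5f84aa_co.Defs

/-! Step J3 of the illumination project. -/

namespace Pool.Agent.P.MP_5f84aa_co

open Finset

namespace J3A

variable {B : ℝ} {E : Finset Bar} {X : Box} {ω : Fin 2 → Bool}

theorem corner (hX : IsCell B E X) (ω : Fin 2 → Bool) : X.At (fun k => X.bd k (!ω k)) ω := by
  intro k
  have := hX.lt k
  cases h : ω k <;> simp [h, this]

theorem side (hS : Sys B E) (hX : IsCell B E X) {k : Fin 2}
    (hk : X.bd k (!ω k) ≠ sg (!ω k) * B) : ∃ t ∈ E, t.ax = k.rev ∧ t.pos = X.bd k (!ω k) ∧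
    (t.en (!ω k.rev) = X.bd k.rev (!ω k.rev) ∨
      (t.lo < X.bd k.rev (!ω k.rev) ∧ X.bd k.rev (!ω k.rev) < t.hi)) := by
  obtain ⟨ε, hε, hg⟩ := exists_gap_at B E (X.bd k.rev (!ω k.rev))
  have hw := (hX.wall k (!ω k)).resolve_left hk
  have hlt := hX.lt k.rev
  obtain ⟨δ, h0, h1, h2⟩ : ∃ δ : ℝ, 0 < δ ∧ δ < ε ∧ δ < X.hi k.rev - X.lo k.rev :=
    ⟨min ε (X.hi k.rev - X.lo k.rev) / 2, by have := lt_min hε (sub_pos.2 hlt); linarith,
      by have := min_le_left ε (X.hi k.rev - X.lo k.rev); linarith,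
      by have := min_le_right ε (X.hi k.rev - X.lo k.rev); linarith⟩
  obtain ⟨t, ht, e1, e2, e3⟩ := hw
    (fun l => if l = k then X.bd k (!ω k) else X.bd k.rev (!ω k.rev) + sg (ω k.rev) * δ)
    (if_pos rfl) (by rw [if_neg (rev_ne k)]; cases ω k.rev <;> simp <;> linarith)
    (by rw [if_neg (rev_ne k)]; cases ω k.rev <;> simp <;> linarith)
  have hax : t.ax = k.rev := by
    refine eq_rev_of_ne fun h => ?_
    rw [h] at e1
    simp only [if_neg (rev_ne k)] at e1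
    have h3 := hg t.pos (Or.inr (Or.inr ⟨t, ht, rfl⟩)) (by
      rw [← e1, add_sub_cancel_left]
      cases ω k.rev <;> simp [abs_of_pos h0, h1])
    rw [h3] at e1
    revert e1
    cases ω k.rev <;> simp [h0.ne']
  rw [hax] at e1 e2 e3
  simp only [Fin.rev_rev, if_true, if_neg (rev_ne k), add_zero, sub_zero] at e1 e2 e3
  refine ⟨t, ht, hax, e1.symm, ?_⟩
  have g1 := hg _ (hS.lam_en ht false)
  have g2 := hg _ (hS.lam_en ht true)
  revert e2 e3 g1 g2
  cases ω k.rev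
  · simp only [Bool.not_false, Box.bd_true, sg_false, Bar.en_true, Bar.en_false]
    intro e2 e3 _ g2
    rcases lt_or_ge (X.hi k.rev) t.hi with h | h
    · exact Or.inr ⟨by linarith, h⟩
    · exact Or.inl (g2 (abs_lt.2 ⟨by linarith, by linarith⟩))
  · simp only [Bool.not_true, Box.bd_false, sg_true, Bar.en_true, Bar.en_false]
    intro e2 e3 g1 _
    rcases lt_or_ge t.lo (X.lo k.rev) with h | h
    · exact Or.inr ⟨h, by linarith⟩
    · exact Or.inl (g1 (abs_lt.2 ⟨by linarith, by linarith⟩))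

theorem fin (hX : IsCell B E X) {k : Fin 2} {t : Bar} (ht : t ∈ E) (h1 : t.ax = k.rev)
    (h2 : t.pos = X.bd k (!ω k)) (h3 : t.en (!ω k.rev) = X.bd k.rev (!ω k.rev)) :
    ∃ e ∈ E, ∃ b τ, e.om b τ = ω ∧ Jc X e b τ ∧ e.pt b = fun k => X.bd k (!ω k) := by
  have e1 : t.om (!ω k.rev) (ω k) = ω := funext ((forall_ax t.ax).2
    ⟨by rw [Bar.om_ax, h1, Bool.not_not], by rw [Bar.om_rev, h1, Fin.rev_rev]⟩)
  have e2 : t.pt (!ω k.rev) = fun k => X.bd k (!ω k) := pt_ext t.ax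
    (by rw [Bar.pt_ax, h3, h1]) (by rw [Bar.pt_rev, h2, h1, Fin.rev_rev])
  refine ⟨t, ht, !ω k.rev, ω k, e1, ?_, e2⟩
  rw [Jc, e1, e2]
  exact corner hX ω

end J3A

open J3A in
theorem s_J3 (hUN : S_UN) : S_J3 := by
  intro B E hS X hX ω ⟨k, hk⟩
  obtain ⟨t, ht, h1, h2, h3 | h3⟩ := side hS hX hk
  · exact fin hX ht h1 h2 h3
  have hb := hS.box t ht
  have hk' : X.bd k.rev (!ω k.rev) ≠ sg (!ω k.rev) * B := by
    intro h
    rw [h] at h3
    revert h3
    cases ω k.rev <;> simp <;> intro h4 <;> linarith [hb.2.2.1, hb.2.2.2]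
  obtain ⟨t', ht', h4, h5, h6 | h6⟩ := side hS hX hk'
  · exact fin hX ht' h4 h5 h6
  have e := hS.disj t ht t' ht' (fun k => X.bd k (!ω k))
    ⟨by rw [h1, Fin.rev_rev, h2], by rw [h1]; exact h3.1, by rw [h1]; exact h3.2⟩
    ⟨by rw [h4, Fin.rev_rev, h5], by rw [h4]; exact h6.1, by rw [h4]; exact h6.2⟩
  rw [e, h4] at h1
  exact absurd h1 (rev_ne _)

end Pool.Agent.P.MP_5f84aa_co
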