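import Pool.Agent.P.MP_5f84aa_co.Defs

/-! Step LGT of the illumination project. -/

namespace Pool.Agent.P.MP_5f84aa_co

open Finset

namespace LGTA

variable {B : ℝ} {E : Finset Bar}

theorem hug (hS : Sys B E) {e t : Bar} (he : e ∈ E) (ht : t ∈ E) {γ g : ℝ} {z : Pt}
    (hg : ∀ x, Lam B E x → |x - e.pos| < g → x = e.pos) (h1 : e.lo < z e.ax) (h2 : z e.ax < e.hi)
    (h3 : z e.ax.rev ≠ e.pos) (h4 : |z e.ax.rev - e.pos| < g) (h5 : |z e.ax.rev - e.pos| < γ) :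
    ¬ t.On γ z := by
  intro h
  by_cases hx : t.ax = e.ax
  · have h6 : z e.ax.rev = t.pos := hx ▸ h.1
    rw [h6] at h3 h4
    exact h3 (hg _ (Or.inr (Or.inr ⟨t, ht, rfl⟩)) h4)
  · have h6 := eq_rev_of_ne hx
    obtain ⟨a1, a2, a3⟩ := h
    rw [h6] at a1 a2 a3
    rw [Fin.rev_rev] at a1
    rw [abs_lt] at h5
    refine hx (congrArg Bar.ax (hS.disj t ht e he
      (fun l => if l = e.ax then z e.ax else e.pos) ?_ ?_))
    · rw [Bar.In, h6, Fin.rev_rev, if_pos rfl, if_neg (rev_ne _)]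
      exact ⟨a1, by linarith [h5.2], by linarith [h5.1]⟩
    · rw [Bar.In, if_pos rfl, if_neg (rev_ne _)]
      exact ⟨rfl, h1, h2⟩

theorem in_iff {lo hi p x : ℝ} {b : Bool} (h : (if b then hi else lo) = p) :
    (lo < x ∧ x < hi ↔ 0 < sg (!b) * (x - p) ∧ sg (!b) * (x - p) < hi - lo) ∧
    (lo ≤ x ∧ x ≤ hi ↔ 0 ≤ sg (!b) * (x - p) ∧ sg (!b) * (x - p) ≤ hi - lo) := by
  subst h
  cases b <;> simp only [Bool.not_true, Bool.not_false, sg_true, sg_false, if_true,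
    Bool.false_eq_true, if_false] <;> refine ⟨⟨?_, ?_⟩, ?_, ?_⟩ <;> rintro ⟨h1, h2⟩ <;>
    constructor <;> linarith

theorem abs_sg (b : Bool) (x : ℝ) : |sg b * x| = |x| := by cases b <;> simp

end LGTA

open LGTA

theorem s_LGT (hJ1 : S_J1) : S_LGT := by
  intro B E hS γ η hγ hη e he b σ X Y hX hY jX jY
  obtain ⟨x1, x2, x3, x4⟩ := hJ1 B E hS X hX e he b σ jX
  obtain ⟨y1, y2, y3, y4⟩ := hJ1 B E hS Y hY e he b (!σ) jY
  rw [Bool.not_not] at y2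
  obtain ⟨g, hg, hg'⟩ := exists_gap_at B E e.pos
  have hL : 0 < e.hi - e.lo := sub_pos.2 (hS.lt e he)
  have hwX := sub_pos.2 (hX.lt e.ax)
  have hwY := sub_pos.2 (hY.lt e.ax)
  have hhX := sub_pos.2 (hX.lt e.ax.rev)
  obtain ⟨ρ, hρ, r1, r2, r3⟩ : ∃ ρ > (0 : ℝ), 2 * ρ ≤ γ ∧ ρ < X.hi e.ax - X.lo e.ax ∧
      ρ < Y.hi e.ax - Y.lo e.ax := by
    have h0 := lt_min hγ (lt_min hwX hwY)
    have h1 := min_le_left γ (min (X.hi e.ax - X.lo e.ax) (Y.hi e.ax - Y.lo e.ax))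
    have h2 := min_le_right γ (min (X.hi e.ax - X.lo e.ax) (Y.hi e.ax - Y.lo e.ax))
    refine ⟨_, half_pos h0, by linarith, ?_, ?_⟩
    · linarith [min_le_left (X.hi e.ax - X.lo e.ax) (Y.hi e.ax - Y.lo e.ax)]
    · linarith [min_le_right (X.hi e.ax - X.lo e.ax) (Y.hi e.ax - Y.lo e.ax)]
  obtain ⟨η', hη', n1, n2, n3⟩ : ∃ η' > (0 : ℝ), η' ≤ η ∧ η' ≤ g ∧ η' ≤ γ :=
    ⟨_, lt_min hη (lt_min hg hγ), min_le_left _ _, (min_le_right _ _).trans (min_le_left _ _),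
      (min_le_right _ _).trans (min_le_right _ _)⟩
  obtain ⟨ε, hε, e1, e2, e3⟩ : ∃ ε > (0 : ℝ), ε ≤ η' ∧ ε < X.hi e.ax.rev - X.lo e.ax.rev ∧
      ε * (e.hi - e.lo) ≤ ρ * η' := by
    have h0 : 0 < ρ * η' / (e.hi - e.lo) := by positivity
    refine ⟨_, lt_min hη' (lt_min (half_pos hhX) h0), min_le_left _ _,
      ((min_le_right _ _).trans (min_le_left _ _)).trans_lt (half_lt_self hhX), ?_⟩
    rw [← le_div_iff₀ hL]
    exact (min_le_right _ _).trans (min_le_right _ _)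
  obtain ⟨A, hA⟩ : ∃ A : Pt → ℝ, ∀ z, A z = sg (!b) * (z e.ax - e.en b) := ⟨_, fun _ => rfl⟩
  obtain ⟨H, hH⟩ : ∃ H : Pt → ℝ, ∀ z, H z = sg (!σ) * (z e.ax.rev - e.pos) := ⟨_, fun _ => rfl⟩
  obtain ⟨x, xA, xH⟩ : ∃ x : Pt, A x = ρ ∧ H x = -ε := by
    refine ⟨fun l => if l = e.ax then e.en b + sg (!b) * ρ else e.pos - sg (!σ) * ε, ?_, ?_⟩
    · rw [hA, if_pos rfl, add_sub_cancel_left, ← mul_assoc, sg_mul_self, one_mul]
    · rw [hH, if_neg (rev_ne _), sub_sub_cancel_left, mul_neg, ← mul_assoc, sg_mul_self, one_mul]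
  have fe : ∀ z, 0 < A z → A z < e.hi - e.lo → e.lo < z e.ax ∧ z e.ax < e.hi := fun z h1 h2 =>
    (in_iff (b := b) rfl).1.2 ⟨hA z ▸ h1, hA z ▸ h2⟩
  have hH0 : ∀ z, H z = 0 ↔ z e.ax.rev = e.pos := fun z => by
    rw [← abs_eq_zero, hH, abs_sg, abs_eq_zero, sub_eq_zero]
  have hug' : ∀ t ∈ E, ∀ z, 0 < A z → A z < e.hi - e.lo → H z ≠ 0 → |H z| < η' → ¬ t.On γ z := by
    intro t ht z h1 h2 h3 h4
    rw [hH, abs_sg] at h4
    exact hug hS he ht hg' (fe z h1 h2).1 (fe z h1 h2).2 (fun h => h3 ((hH0 z).2 h))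
      (h4.trans_le n2) (h4.trans_le n3)
  have line : ∀ t ∈ E, ∀ z, 0 < A z → A z < e.hi - e.lo → H z = 0 → A z < γ → ¬ t.On γ z := by
    intro t ht z h1 h2 h3 h4 h
    obtain rfl := hS.disj t ht e he z (h.inn hγ) ⟨(hH0 z).1 h3, fe z h1 h2⟩
    obtain ⟨-, a2, a3⟩ := h
    rw [hA] at h4
    cases b <;> simp at h4 <;> linarith
  refine ⟨x, (forall_ax e.ax).2 ⟨(in_iff x1).1.2 ?_, (in_iff x2).1.2 ?_⟩, fun t ht q hq hYq => ?_⟩
  · rw [← hA, xA]
    exact ⟨hρ, r2⟩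
  · rw [sg_not, neg_mul, ← hH, xH, neg_neg]
    exact ⟨hε, e2⟩
  obtain ⟨q1, q2⟩ := (in_iff y1).2.1 (hYq e.ax)
  obtain ⟨q3, q4⟩ := (in_iff y2).2.1 (hYq e.ax.rev)
  rw [← hA] at q1 q2
  rw [← hH] at q3 q4
  have hw : Y.hi e.ax - Y.lo e.ax ≤ e.hi - e.lo := by linarith
  by_cases hc : ρ < A q ∧ 0 < H q ∧ H q < η'
  · right
    have h1 : A q = e.hi - e.lo := by
      refine le_antisymm (q2.trans hw) (not_lt.1 fun h => ?_)
      exact hug' t ht q (hρ.trans hc.1) h hc.2.1.ne' (by rw [abs_of_pos hc.2.1]; exact hc.2.2) hq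
    have h2 : q e.ax = e.en (!b) := by
      rw [hA] at h1
      cases b <;> simp at h1 ⊢ <;> linarith
    refine ⟨(forall_ax e.ax).2 ⟨?_, ?_⟩, h2, hH q ▸ hc.2.1, hH q ▸ hc.2.2.trans_le n1⟩
    · rw [Bar.pt_ax, ← h2]
      exact hYq _
    · rw [Bar.pt_rev]
      simpa using jY.cl e.ax.rev
  left
  rintro z ⟨u, v, hu, hv, huv, hz⟩ t' ht'
  have zA : A z = u * ρ + v * A q := by
    rw [← xA, ← hz, hA, hA, hA, Pi.add_apply, Pi.smul_apply, Pi.smul_apply, smul_eq_mul,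
      smul_eq_mul]
    linear_combination (sg (!b) * e.en b) * huv
  have zH : H z = u * -ε + v * H q := by
    rw [← xH, ← hz, hH, hH, hH, Pi.add_apply, Pi.smul_apply, Pi.smul_apply, smul_eq_mul,
      smul_eq_mul]
    linear_combination (sg (!σ) * e.pos) * huv
  obtain rfl : u = 1 - v := by linarith
  have m1 := mul_pos hu hρ
  have m2 := mul_nonneg hv.le q1
  have m3 := mul_pos hu hε
  have m4 := mul_nonneg hv.le q3
  have m5 := mul_pos hv hε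
  have z1 : 0 < A z := by linarith
  have z2 : A z < Y.hi e.ax - Y.lo e.ax := by
    have := mul_lt_mul_of_pos_left r3 hu
    have := mul_le_mul_of_nonneg_left q2 hv.le
    linarith
  rcases lt_trichotomy (H z) 0 with h | h | h
  · exact hug' t' ht' z z1 (z2.trans_le hw) h.ne (by rw [abs_of_neg h]; linarith)
  · refine line t' ht' z z1 (z2.trans_le hw) h ?_
    by_cases h1 : ρ < A q
    · have h2 : η' ≤ H q := by
        refine not_lt.1 fun h2 => hc ⟨h1, ?_, h2⟩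
        refine lt_of_le_of_ne q3 fun h3 => ?_
        rw [← h3] at zH
        linarith
      have h3 : v * η' < ε := by linarith [mul_le_mul_of_nonneg_left h2 hv.le]
      have h4 : v * (e.hi - e.lo) < ρ := by
        refine lt_of_mul_lt_mul_right ?_ hη'.le
        linarith [mul_lt_mul_of_pos_right h3 hL]
      linarith [mul_le_mul_of_nonneg_left (q2.trans hw) hv.le, mul_pos hv hρ]
    · linarith [mul_le_mul_of_nonneg_left (not_lt.1 h1) hv.le]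
  · intro h'
    refine hY.free z ((forall_ax e.ax).2 ⟨(in_iff y1).1.2 ?_, (in_iff y2).1.2 ?_⟩) t' ht'
      (h'.mono hγ.le)
    · rw [← hA]
      exact ⟨z1, z2⟩
    · rw [← hH]
      exact ⟨h, by linarith [mul_nonneg hu.le q3]⟩

end Pool.Agent.P.MP_5f84aa_co
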