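import Pool.Agent.P.MP_5f84aa_co.Defs

/-! Step MG of the illumination project. -/

namespace Pool.Agent.P.MP_5f84aa_co

open Finset

namespace MGA

theorem at_corner {X : Box} (hX : ∀ k, X.lo k < X.hi k) (ω : Fin 2 → Bool) :
    X.At (fun k => X.bd k (!ω k)) ω := fun k => by
  have := hX k
  cases h : ω k <;> simp [h, this]

theorem sum_ax (f : Fin 2 → ℝ) (a : Fin 2) : ∑ k, f k = f a + f a.rev := by
  rw [Fin.sum_univ_two]
  fin_cases a
  · rfl
  · exact add_comm _ _

theorem om_const (e : Bar) (b : Bool) : e.om b (!b) = fun _ => !b := by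
  funext k
  simp [Bar.om]

theorem card_quad : Fintype.card (Fin 2 → Bool) = 4 := by simp

theorem sum_dg {V J : Type} [Fintype V] [Fintype J] [DecidableEq V] (c : J → Bool → V) :
    ∑ v, dg c v = 2 * Fintype.card J := by
  have h := card_eq_sum_card_fiberwise (s := (univ : Finset (J × Bool))) (t := (univ : Finset V))
    (f := fun x => c x.1 x.2) (fun _ _ => mem_coe.2 (mem_univ _))
  simp only [card_univ, Fintype.card_prod, Fintype.card_bool] at h
  rw [mul_comm, h]
  rfl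

end MGA

open MGA in
theorem s_MG (hUN : S_UN) (hJ1 : S_J1) (hJ2 : S_J2) (hJ3 : S_J3) : S_MG := by
  intro B E hS _ _ c hc
  classical
  obtain ⟨hU, -, -⟩ := hUN B E hS
  have h1 : ∀ (j : E × Bool) (τ : Bool), (c j τ).1.bd j.1.1.ax j.2 = j.1.1.en j.2 ∧
      (c j τ).1.bd j.1.1.ax.rev (!τ) = j.1.1.pos := fun j τ =>
    ⟨(hJ1 B E hS _ (c j τ).2 _ j.1.2 _ _ (hc j τ)).1,
      (hJ1 B E hS _ (c j τ).2 _ j.1.2 _ _ (hc j τ)).2.1⟩
  have hinj : ∀ x y : (E × Bool) × Bool, c x.1 x.2 = c y.1 y.2 →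
      x.1.1.1.om x.1.2 x.2 = y.1.1.1.om y.1.2 y.2 → x = y := by
    rintro ⟨⟨e, b⟩, τ⟩ ⟨⟨e', b'⟩, τ'⟩ h h'
    have h2 := hc (e', b') τ'
    simp only at h h'
    rw [← h] at h2
    obtain ⟨e1, e2, e3⟩ := hJ2 B E hS _ (c (e, b) τ).2 _ e.2 _ e'.2 _ _ _ _ (hc (e, b) τ) h2 h'
    rw [Subtype.ext e1, e3]
    simp only at e2
    rw [e2]
  set F : Finset (Cell B E) :=
    univ.filter fun X => ∃ ω : Fin 2 → Bool, ∀ k, X.1.bd k (!ω k) = sg (!ω k) * B with hF
  have hF4 : F.card ≤ 4 := by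
    have hex : ∀ X ∈ F, ∃ ω : Fin 2 → Bool, ∀ k, X.1.bd k (!ω k) = sg (!ω k) * B :=
      fun X hX => (mem_filter.1 hX).2
    choose! f hf using hex
    rw [← card_quad, ← card_univ]
    refine card_le_card_of_injOn f (fun _ _ => mem_coe.2 (mem_univ _)) fun X hX Y hY h => ?_
    have a1 := at_corner X.2.lt (f X)
    have a2 := at_corner Y.2.lt (f Y)
    rw [funext (hf X hX)] at a1
    rw [funext (hf Y hY), ← h] at a2
    exact Subtype.ext (hU _ _ _ _ X.2 Y.2 a1 a2)
  have hle : ∀ v, dg c v ≤ 4 := fun v => by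
    rw [← card_quad, ← card_univ]
    refine card_le_card_of_injOn (fun x => x.1.1.1.om x.1.2 x.2)
      (fun _ _ => mem_coe.2 (mem_univ _)) fun x hx y hy h => hinj x y ?_ h
    rw [(mem_filter.1 (mem_coe.1 hx)).2, (mem_filter.1 (mem_coe.1 hy)).2]
  have hge : ∀ v, v ∉ F → 4 ≤ dg c v := fun v hv => by
    rw [← card_quad, ← card_univ]
    refine card_le_card_of_surjOn (fun x => x.1.1.1.om x.1.2 x.2) fun ω _ => ?_
    have hω : ∃ k, v.1.bd k (!ω k) ≠ sg (!ω k) * B := by
      by_contra h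
      push Not at h
      exact hv (mem_filter.2 ⟨mem_univ _, ω, h⟩)
    obtain ⟨e, he, b, τ, e1, e2, -⟩ := hJ3 B E hS _ v.2 ω hω
    refine ⟨((⟨e, he⟩, b), τ), mem_coe.2 (mem_filter.2 ⟨mem_univ _, ?_⟩), e1⟩
    exact Subtype.ext (hU _ _ _ _ (c (⟨e, he⟩, b) τ).2 v.2 (hc (⟨e, he⟩, b) τ) e2)
  have hsum := sum_dg c
  have hJ : Fintype.card (E × Bool) = 2 * E.card := by
    simp [mul_comm]
  refine ⟨F, hF4, ⟨fun j h => ?_, hle, hge, fun Y hY => ?_⟩, ?_, ?_⟩
  · have a1 := (h1 j true).2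
    have a2 := (h1 j false).2
    rw [← h] at a2
    have := (c j true).2.lt j.1.1.ax.rev
    simp only [Bool.not_true, Bool.not_false, Box.bd_true, Box.bd_false] at a1 a2
    linarith
  · obtain ⟨X1, hX1, m1⟩ := Y.exists_max_image (fun X => ∑ k, X.1.hi k) hY
    obtain ⟨X0, hX0, m0⟩ := Y.exists_min_image (fun X => ∑ k, X.1.lo k) hY
    have hsub : (univ.filter fun j => c j true ∈ Y ∧ c j false ∈ Y).card ≤
        (((Y ×ˢ (univ : Finset Bool)).erase (X1, true)).erase (X0, false)).card := by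
      refine card_le_card_of_injOn (fun j => (c j (!j.2), j.2)) (fun j hj => ?_)
        fun j _ j' _ h => ?_
      · obtain ⟨e, b⟩ := j
        obtain ⟨y1, y0⟩ := (mem_filter.1 (mem_coe.1 hj)).2
        obtain ⟨a1, a2⟩ := h1 (e, b) true
        obtain ⟨a3, a4⟩ := h1 (e, b) false
        simp only [Bool.not_true, Bool.not_false, Box.bd_true, Box.bd_false] at a2 a4
        refine mem_coe.2 (mem_erase.2 ⟨fun h => ?_, mem_erase.2 ⟨fun h => ?_, ?_⟩⟩)
        · obtain ⟨k1, k2⟩ := Prod.ext_iff.1 h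
          simp only at k1 k2
          subst k2
          have m := m0 _ y0
          rw [← k1, sum_ax _ e.1.ax, sum_ax _ e.1.ax] at m
          have := (c (e, false) false).2.lt e.1.ax.rev
          simp only [Bool.not_false, Box.bd_false] at a1 a3 m
          linarith
        · obtain ⟨k1, k2⟩ := Prod.ext_iff.1 h
          simp only at k1 k2
          subst k2
          have m := m1 _ y1
          rw [← k1, sum_ax _ e.1.ax, sum_ax _ e.1.ax] at m
          have := (c (e, true) true).2.lt e.1.ax.rev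
          simp only [Bool.not_true, Box.bd_true] at a1 a3 m
          linarith
        · refine mem_product.2 ⟨?_, mem_univ _⟩
          cases b
          exacts [y1, y0]
      · obtain ⟨e, b⟩ := j
        obtain ⟨e', b'⟩ := j'
        obtain ⟨k1, k2⟩ := Prod.ext_iff.1 h
        simp only at k1 k2
        subst k2
        have := hinj ((e, b), !b) ((e', b), !b) k1 (by simp only [om_const])
        exact (Prod.ext_iff.1 this).1
    have c1 : (X1, true) ∈ Y ×ˢ (univ : Finset Bool) := mem_product.2 ⟨hX1, mem_univ _⟩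
    have c0 : (X0, false) ∈ (Y ×ˢ (univ : Finset Bool)).erase (X1, true) :=
      mem_erase.2 ⟨by simp, mem_product.2 ⟨hX0, mem_univ _⟩⟩
    have d0 := card_erase_add_one c0
    have d1 := card_erase_add_one c1
    rw [card_product, card_univ, Fintype.card_bool] at d1
    omega
  · have a1 : ∑ v ∈ Fᶜ, 4 ≤ ∑ v ∈ Fᶜ, dg c v := sum_le_sum fun v hv => hge v (mem_compl.1 hv)
    have a2 : ∑ v ∈ Fᶜ, dg c v ≤ ∑ v, dg c v := sum_le_sum_of_subset (subset_univ _)
    have a3 := card_add_card_compl F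
    rw [sum_const, smul_eq_mul] at a1
    omega
  · have a1 : ∑ v, dg c v ≤ ∑ _v : Cell B E, 4 := sum_le_sum fun v _ => hle v
    rw [sum_const, card_univ, smul_eq_mul] at a1
    omega

end Pool.Agent.P.MP_5f84aa_co
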