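import Pool.Agent.P.MP_5f84aa_co.Defs

/-! Step SYS of the illumination project. -/

namespace Pool.Agent.P.MP_5f84aa_co

open Finset

namespace SYSA

/-- `(lo, hi)` is a gap of `P`. -/
def Gap (P : Set ℝ) (lo hi : ℝ) : Prop := lo ∈ P ∧ hi ∈ P ∧ ∀ p ∈ P, p ≤ lo ∨ hi ≤ p

theorem exists_gap {P : Set ℝ} (hP : P.Finite) {l h u v : ℝ} (hl : l ∈ P) (hh : h ∈ P)
    (h1 : l < u) (h2 : v < h) (h3 : ∀ p ∈ P, p < u ∨ v < p) :
    ∃ lo hi, Gap P lo hi ∧ lo < u ∧ v < hi := by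
  obtain ⟨lo, a1, a2⟩ := Set.exists_max_image {p ∈ P | p < u} id (hP.subset fun _ h => h.1)
    ⟨l, hl, h1⟩
  obtain ⟨hi, b1, b2⟩ := Set.exists_min_image {p ∈ P | v < p} id (hP.subset fun _ h => h.1)
    ⟨h, hh, h2⟩
  exact ⟨lo, hi, ⟨a1.1, b1.1, fun p hp => (h3 p hp).imp (fun h => a2 p ⟨hp, h⟩)
    fun h => b2 p ⟨hp, h⟩⟩, a1.2, b1.2⟩

theorem Gap.unique {P : Set ℝ} {lo hi lo' hi' x : ℝ} (h : Gap P lo hi) (h' : Gap P lo' hi')
    (h1 : lo < x) (h2 : x < hi) (h3 : lo' < x) (h4 : x < hi') : lo = lo' ∧ hi = hi' :=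
  ⟨le_antisymm ((h'.2.2 _ h.1).resolve_right (h1.trans h4).not_ge)
      ((h.2.2 _ h'.1).resolve_right (h3.trans h2).not_ge),
    le_antisymm ((h.2.2 _ h'.2.1).resolve_left (h1.trans h4).not_ge)
      ((h'.2.2 _ h.2.1).resolve_left (h3.trans h2).not_ge)⟩

theorem Gap.not {P : Set ℝ} {lo hi p : ℝ} (h : Gap P lo hi) (hp : p ∈ P) (h1 : lo < p)
    (h2 : p < hi) : False := (h.2.2 p hp).elim h1.not_ge h2.not_ge

/-- The two walls and the values of `f` on `s`. -/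
def PP {n : ℕ} (B : ℝ) (f : Fin n → ℝ) (s : Fin n → Prop) : Set ℝ :=
  {p | p = -B ∨ p = B ∨ ∃ j, s j ∧ p = f j}

theorem PP_fin {n : ℕ} (B : ℝ) (f : Fin n → ℝ) (s : Fin n → Prop) : (PP B f s).Finite := by
  refine (((Set.finite_range f).insert B).insert (-B)).subset ?_
  rintro p (h | h | ⟨j, -, h⟩)
  exacts [Or.inl h, Or.inr (Or.inl h), Or.inr (Or.inr ⟨j, h.symm⟩)]

theorem PP_bd {n : ℕ} {B : ℝ} {f : Fin n → ℝ} {s : Fin n → Prop} (hB : 0 < B)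
    (h : ∀ j, -B < f j ∧ f j < B) {p : ℝ} (hp : p ∈ PP B f s) : -B ≤ p ∧ p ≤ B := by
  rcases hp with rfl | rfl | ⟨j, -, rfl⟩
  exacts [⟨le_rfl, by linarith⟩, ⟨by linarith, le_rfl⟩, ⟨(h j).1.le, (h j).2.le⟩]

theorem PP_end {n : ℕ} {B : ℝ} {f : Fin n → ℝ} {s : Fin n → Prop} {lo hi : ℝ}
    (h : Gap (PP B f s) lo hi) (h1 : lo < B) (h2 : -B < hi) (b : Bool) :
    (if b then hi else lo) = sg b * B ∨ ∃ j, s j ∧ (if b then hi else lo) = f j := by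
  cases b
  · rcases h.1 with e | e | e
    exacts [Or.inl (by simpa using e), absurd e h1.ne, Or.inr e]
  · rcases h.2.1 with e | e | e
    exacts [absurd e h2.ne', Or.inl (by simpa using e), Or.inr e]

theorem core {n : ℕ} (u v : Fin n → Pt) (huv : ∀ i k, u i k ≤ v i k)
    (hax : ∀ i, u i 1 ≠ v i 1 → u i 0 = v i 0)
    (hd : ∀ i j (q : Pt), (∀ k, u i k ≤ q k ∧ q k ≤ v i k) → (∀ k, u j k ≤ q k ∧ q k ≤ v j k) →
      i = j) :
    ∃ (B γ : ℝ) (E : Finset Bar), Sys B E ∧ 0 < γ ∧ E.card ≤ n ∧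
      ∀ i, ∃ e ∈ E, ∀ q : Pt, (∀ k, u i k ≤ q k ∧ q k ≤ v i k) → e.On γ q := by
  classical
  obtain ⟨B, hB, hu, hv⟩ : ∃ B > (0 : ℝ), (∀ i k, -B < u i k ∧ u i k < B) ∧
      ∀ i k, -B < v i k ∧ v i k < B := by
    obtain ⟨M, hM⟩ := Finite.exists_le fun p : Fin n × Fin 2 => max |u p.1 p.2| |v p.1 p.2|
    refine ⟨|M| + 1, by positivity, fun i k => abs_lt.1 ?_, fun i k => abs_lt.1 ?_⟩
    · linarith [le_max_left |u i k| |v i k|, hM (i, k), le_abs_self M]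
    · linarith [le_max_right |u i k| |v i k|, hM (i, k), le_abs_self M]
  let P0 : ℝ → Set ℝ := fun y =>
    PP B (fun j => u j 0) fun j => u j 1 ≠ v j 1 ∧ u j 1 ≤ y ∧ y ≤ v j 1
  have g0 : ∀ i, ∃ lo hi, u i 1 = v i 1 → Gap (P0 (u i 1)) lo hi ∧ lo < u i 0 ∧ v i 0 < hi := by
    intro i
    by_cases H : u i 1 = v i 1
    swap
    · exact ⟨0, 0, fun h => absurd h H⟩
    obtain ⟨lo, hi, h⟩ := exists_gap (P := P0 (u i 1)) (PP_fin _ _ _) (Or.inl rfl)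
      (Or.inr (Or.inl rfl)) (hu i 0).1 (hv i 0).2 (by
        rintro p (rfl | rfl | ⟨j, ⟨j1, j2, j3⟩, rfl⟩)
        · exact Or.inl (hu i 0).1
        · exact Or.inr (hv i 0).2
        · by_contra hn
          rw [not_or, not_lt, not_lt] at hn
          have := hd i j ![u j 0, u i 1] (Fin.forall_fin_two.2 ⟨hn, le_rfl, huv i 1⟩)
            (Fin.forall_fin_two.2 ⟨⟨le_rfl, huv j 0⟩, j2, j3⟩)
          exact j1 (this ▸ H))
    exact ⟨lo, hi, fun _ => h⟩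
  choose lo hi g0 using g0
  let P1 : ℝ → Set ℝ := fun x =>
    PP B (fun i => u i 1) fun i => u i 1 = v i 1 ∧ lo i < x ∧ x < hi i
  have g1 : ∀ j, ∃ lo' hi', u j 1 ≠ v j 1 →
      Gap (P1 (u j 0)) lo' hi' ∧ lo' < u j 1 ∧ v j 1 < hi' := by
    intro j
    by_cases H : u j 1 = v j 1
    · exact ⟨0, 0, fun h => absurd H h⟩
    obtain ⟨lo', hi', h⟩ := exists_gap (P := P1 (u j 0)) (PP_fin _ _ _) (Or.inl rfl)
      (Or.inr (Or.inl rfl)) (hu j 1).1 (hv j 1).2 (by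
        rintro p (rfl | rfl | ⟨i, ⟨i1, i2, i3⟩, rfl⟩)
        · exact Or.inl (hu j 1).1
        · exact Or.inr (hv j 1).2
        · by_contra hn
          rw [not_or, not_lt, not_lt] at hn
          exact (g0 i i1).1.not (Or.inr (Or.inr ⟨j, ⟨H, hn⟩, rfl⟩)) i2 i3)
    exact ⟨lo', hi', fun _ => h⟩
  choose lo' hi' g1 using g1
  let bar : Fin n → Bar := fun i =>
    if u i 1 = v i 1 then ⟨0, u i 1, lo i, hi i⟩ else ⟨1, u i 0, lo' i, hi' i⟩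
  have m0 : ∀ i, u i 1 = v i 1 → (⟨0, u i 1, lo i, hi i⟩ : Bar) ∈ univ.image bar := fun i h =>
    mem_image.2 ⟨i, mem_univ _, if_pos h⟩
  have m1 : ∀ i, u i 1 ≠ v i 1 → (⟨1, u i 0, lo' i, hi' i⟩ : Bar) ∈ univ.image bar := fun i h =>
    mem_image.2 ⟨i, mem_univ _, if_neg h⟩
  have cs : ∀ p : Bar → Prop, (∀ i, u i 1 = v i 1 → p ⟨0, u i 1, lo i, hi i⟩) →
      (∀ i, u i 1 ≠ v i 1 → p ⟨1, u i 0, lo' i, hi' i⟩) → ∀ e ∈ univ.image bar, p e := by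
    intro p h1 h2 e he
    obtain ⟨i, -, rfl⟩ := mem_image.1 he
    by_cases H : u i 1 = v i 1
    · rw [show bar i = _ from if_pos H]
      exact h1 i H
    · rw [show bar i = _ from if_neg H]
      exact h2 i H
  have cross : ∀ i j (q : Pt), u i 1 = v i 1 → u j 1 ≠ v j 1 →
      (⟨0, u i 1, lo i, hi i⟩ : Bar).In q → ¬ (⟨1, u j 0, lo' j, hi' j⟩ : Bar).In q := by
    rintro i j q hi hj ⟨a1, a2, a3⟩ ⟨b1, b2, b3⟩
    exact (g1 j hj).1.not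
      (Or.inr (Or.inr ⟨i, ⟨hi, a2.trans_eq b1, b1.ge.trans_lt a3⟩, a1⟩)) b2 b3
  have mb : ∀ i, bar i ∈ univ.image bar := fun i => mem_image_of_mem _ (mem_univ i)
  have strict : ∀ i, (bar i).lo < u i (bar i).ax ∧ v i (bar i).ax < (bar i).hi ∧
      u i (bar i).ax.rev = (bar i).pos ∧ v i (bar i).ax.rev = (bar i).pos := fun i => by
    by_cases H : u i 1 = v i 1
    · rw [show bar i = _ from if_pos H]
      exact ⟨(g0 i H).2.1, (g0 i H).2.2, rfl, H.symm⟩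
    · rw [show bar i = _ from if_neg H]
      exact ⟨(g1 i H).2.1, (g1 i H).2.2, rfl, (hax i H).symm⟩
  obtain ⟨γ₁, c1, c2⟩ := Pi.exists_forall_pos_add_lt fun i => (strict i).1
  obtain ⟨γ₂, d1, d2⟩ := Pi.exists_forall_pos_add_lt fun i => (strict i).2.1
  refine ⟨B, min γ₁ γ₂, univ.image bar, ⟨hB, cs _ (fun i h => ?_) fun i h => ?_,
    cs _ (fun i h => ?_) fun i h => ?_,
    cs _ (fun i h => cs _ (fun j h' q a b => ?_) fun j h' q a b => absurd b (cross i j q h h' a))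
      fun i h => cs _ (fun j h' q a b => absurd a (cross j i q h' h b)) fun j h' q a b => ?_,
    cs _ (fun i h b => ?_) fun i h b => ?_⟩, lt_min c1 d1, card_image_le.trans (by simp),
    fun i => ⟨bar i, mb i, fun q hq => ⟨?_, ?_, ?_⟩⟩⟩
  · exact ((g0 i h).2.1.trans_le (huv i 0)).trans (g0 i h).2.2
  · exact ((g1 i h).2.1.trans_le (huv i 1)).trans (g1 i h).2.2
  · exact ⟨(hu i 1).1, (hu i 1).2, (PP_bd hB (fun j => hu j 0) (g0 i h).1.1).1,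
      (PP_bd hB (fun j => hu j 0) (g0 i h).1.2.1).2⟩
  · exact ⟨(hu i 0).1, (hu i 0).2, (PP_bd hB (fun j => hu j 1) (g1 i h).1.1).1,
      (PP_bd hB (fun j => hu j 1) (g1 i h).1.2.1).2⟩
  · have e : u i 1 = u j 1 := a.1.symm.trans b.1
    obtain ⟨e1, e2⟩ := (g0 i h).1.unique (e ▸ (g0 j h').1) a.2.1 a.2.2 b.2.1 b.2.2
    rw [e, e1, e2]
  · have e : u i 0 = u j 0 := a.1.symm.trans b.1
    obtain ⟨e1, e2⟩ := (g1 i h).1.unique (e ▸ (g1 j h').1) a.2.1 a.2.2 b.2.1 b.2.2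
    rw [e, e1, e2]
  · refine (PP_end (g0 i h).1 ((g0 i h).2.1.trans (hu i 0).2) ((hv i 0).1.trans (g0 i h).2.2)
      b).imp id fun ⟨j, ⟨j1, j2, j3⟩, e⟩ => ⟨_, m1 j j1, one_ne_zero, e, ?_, ?_⟩
    · exact (g1 j j1).2.1.trans_le j2
    · exact lt_of_le_of_lt j3 (g1 j j1).2.2
  · exact (PP_end (g1 i h).1 ((g1 i h).2.1.trans (hu i 1).2) ((hv i 1).1.trans (g1 i h).2.2)
      b).imp id fun ⟨j, ⟨j1, j2, j3⟩, e⟩ => ⟨_, m0 j j1, zero_ne_one, e, j2, j3⟩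
  · exact le_antisymm ((hq _).2.trans (strict i).2.2.2.le) ((strict i).2.2.1.ge.trans (hq _).1)
  · linarith [c2 i, (hq (bar i).ax).1, min_le_left γ₁ γ₂]
  · linarith [d2 i, (hq (bar i).ax).2, min_le_right γ₁ γ₂]

theorem mem_seg {a b q : Pt} (k : Fin 2) (h : a k.rev = b k.rev)
    (hq : ∀ l, min (a l) (b l) ≤ q l ∧ q l ≤ max (a l) (b l)) : q ∈ segment ℝ a b := by
  obtain ⟨s, t, hs, ht, e, e'⟩ : q k ∈ segment ℝ (a k) (b k) := by
    rw [segment_eq_uIcc]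
    exact hq k
  refine ⟨s, t, hs, ht, e, pt_ext k e' ?_⟩
  have := hq k.rev
  rw [← h, min_self, max_self] at this
  change s * a k.rev + t * b k.rev = _
  rw [← h, ← add_mul, e, one_mul]
  exact le_antisymm this.1 this.2

end SYSA

theorem s_SYS : S_SYS := by
  intro n a b hax hd
  have h1 : ∀ i (q : Pt), (∀ l, min (a i l) (b i l) ≤ q l ∧ q l ≤ max (a i l) (b i l)) →
      q ∈ segment ℝ (a i) (b i) := fun i q hq =>
    (hax i).elim (fun h => SYSA.mem_seg 1 h hq) fun h => SYSA.mem_seg 0 h hq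
  obtain ⟨B, γ, E, h2, h3, h4, h5⟩ := SYSA.core (fun i k => min (a i k) (b i k))
    (fun i k => max (a i k) (b i k)) (fun i k => min_le_max)
    (fun i h => (hax i).elim (fun e => by simp [e]) fun e => absurd (by simp [e]) h)
    fun i j q hi hj => by_contra fun hn => Set.disjoint_left.1 (hd hn) (h1 i q hi) (h1 j q hj)
  refine ⟨B, γ, E, h2, h3, h4, fun i => ?_⟩
  obtain ⟨e, he, h⟩ := h5 i
  refine ⟨e, he, fun q ⟨s, t, hs, ht, e1, e2⟩ => h q fun k => ?_⟩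
  have : q k ∈ segment ℝ (a i k) (b i k) := ⟨s, t, hs, ht, e1, congrFun e2 k⟩
  rwa [segment_eq_uIcc] at this

end Pool.Agent.P.MP_5f84aa_co
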