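import Pool.Agent.P.MP_5f84aa_co.Defs

/-! Step TCH of the illumination project. -/

namespace Pool.Agent.P.MP_5f84aa_co

open Finset

namespace TCHA

variable {B : ℝ} {E : Finset Bar}

/-- the point of the line of `e` with the coordinate `s` -/
def ln (e : Bar) (s : ℝ) : Pt := fun k => if k = e.ax then s else e.pos

@[simp] theorem ln_ax (e : Bar) (s : ℝ) : ln e s e.ax = s := if_pos rfl
@[simp] theorem ln_rev (e : Bar) (s : ℝ) : ln e s e.ax.rev = e.pos := if_neg (rev_ne _)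

theorem mid {X : Box} (hX : IsCell B E X) {e : Bar} (he : e ∈ E) (h1 : X.lo e.ax.rev < e.pos)
    (h2 : e.pos < X.hi e.ax.rev) {s : ℝ} (h3 : X.lo e.ax < s) (h4 : s < X.hi e.ax)
    (h5 : e.lo ≤ s) (h6 : s ≤ e.hi) : False :=
  hX.free (ln e s) ((forall_ax e.ax).2 ⟨by simp [h3, h4], by simp [h1, h2]⟩) e he
    ⟨by simp, by simpa using h5, by simpa using h6⟩

theorem one (hEX : S_EX) (h : Sys B E) (e : Bar) (he : e ∈ E) (q : Pt) (hq : e.In q) :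
    ∃ X Y, IsCell B E X ∧ IsCell B E Y ∧ X ≠ Y ∧ X.Cl q ∧ Y.Cl q := by
  obtain ⟨b1, b2, b3, b4⟩ := h.box e he
  obtain ⟨q1, q2, q3⟩ := hq
  have key : ∀ τ, (sq B).At q (e.om false τ) := fun τ => (forall_ax e.ax).2 ⟨by
    simp only [Bar.om_ax, Bool.not_false, if_true, sq]
    constructor <;> linarith, by
    cases τ <;> simp [sq, q1, b1, b2, b1.le, b2.le]⟩
  obtain ⟨X, hX, x1⟩ := hEX B E h q _ (key true)
  obtain ⟨Y, hY, y1⟩ := hEX B E h q _ (key false)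
  refine ⟨X, Y, hX, hY, ?_, x1.cl, y1.cl⟩
  rintro rfl
  have a1 := x1 e.ax
  have a2 := x1 e.ax.rev
  have a3 := y1 e.ax.rev
  simp only [Bar.om_ax, Bar.om_rev, Bool.not_false, if_true, Bool.false_eq_true, if_false,
    q1] at a1 a2 a3
  have m1 := min_le_left (X.hi e.ax) e.hi
  have m2 := min_le_right (X.hi e.ax) e.hi
  have m3 : q e.ax < min (X.hi e.ax) e.hi := lt_min a1.2 q3
  exact mid hX he a3.1 a2.2 (s := (q e.ax + min (X.hi e.ax) e.hi) / 2) (by linarith [a1.1])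
    (by linarith) (by linarith) (by linarith)

theorem corner (hJ3 : S_J3) (h : Sys B E) {X : Box} (hX : IsCell B E X) {e : Bar} (he : e ∈ E)
    (h1 : e.lo < X.hi e.ax) (h2 : X.hi e.ax < e.hi) (h3 : X.lo e.ax.rev ≤ e.pos)
    (h4 : e.pos ≤ X.hi e.ax.rev) : ∃ t ∈ E, ∃ b, t.pt b = ln e (X.hi e.ax) := by
  obtain ⟨τ, hτ⟩ : ∃ τ : Bool, X.bd e.ax.rev (!τ) = e.pos := by
    rcases h3.eq_or_lt with h3 | h3
    · exact ⟨true, h3⟩
    rcases h4.eq_or_lt with h4 | h4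
    · exact ⟨false, h4.symm⟩
    have m1 := le_max_left (X.lo e.ax) e.lo
    have m2 := le_max_right (X.lo e.ax) e.lo
    have m3 : max (X.lo e.ax) e.lo < X.hi e.ax := max_lt (hX.lt _) h1
    exact (mid hX he h3 h4 (s := (max (X.lo e.ax) e.lo + X.hi e.ax) / 2) (by linarith)
      (by linarith) (by linarith) (by linarith)).elim
  obtain ⟨t, ht, b, -, -, -, e3⟩ := hJ3 B E h X hX (e.om true τ) ⟨e.ax, by
    have := (h.box e he).2.2.2
    simp only [Bar.om_ax, Bool.not_true, Bool.not_false, Box.bd_true, sg_true]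
    linarith⟩
  exact ⟨t, ht, b, e3.trans (pt_ext e.ax (by simp) (by simp [hτ]))⟩

theorem two (hJ3 : S_J3) (h : Sys B E) (e : Bar) (he : e ∈ E) (q : Pt) (hq : e.On 0 q)
    (X Y : Box) (hX : IsCell B E X) (hY : IsCell B E Y) (cX : X.Cl q) (cY : Y.Cl q) :
    ∃ t ∈ E, ∃ b, X.Cl (t.pt b) ∧ Y.Cl (t.pt b) := by
  rcases hq.cases with ⟨q1, q2, q3⟩ | ⟨b, rfl⟩
  swap
  · exact ⟨e, he, b, cX, cY⟩
  have x1 := cX e.ax
  have x2 := q1 ▸ cX e.ax.rev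
  have y1 := cY e.ax
  have y2 := q1 ▸ cY e.ax.rev
  have key : ∀ m, q e.ax ≤ m → m ≤ X.hi e.ax → m ≤ Y.hi e.ax →
      (∃ t ∈ E, ∃ b, t.pt b = ln e m) → ∃ t ∈ E, ∃ b, X.Cl (t.pt b) ∧ Y.Cl (t.pt b) := by
    rintro m m1 m2 m3 ⟨t, ht, b, e1⟩
    exact ⟨t, ht, b, e1 ▸ (forall_ax e.ax).2 ⟨by simp [x1.1.trans m1, m2], by simp [x2]⟩,
      e1 ▸ (forall_ax e.ax).2 ⟨by simp [y1.1.trans m1, m3], by simp [y2]⟩⟩
  by_cases c1 : e.hi ≤ X.hi e.ax ∧ e.hi ≤ Y.hi e.ax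
  · exact key e.hi q3.le c1.1 c1.2 ⟨e, he, true, rfl⟩
  rw [not_and_or, not_le, not_le] at c1
  rcases le_total (X.hi e.ax) (Y.hi e.ax) with c2 | c2
  · exact key _ x1.2 le_rfl c2 (corner hJ3 h hX he (q2.trans_le x1.2)
      (c1.elim id c2.trans_lt) x2.1 x2.2)
  · exact key _ y1.2 c2 le_rfl (corner hJ3 h hY he (q2.trans_le y1.2)
      (c1.elim c2.trans_lt id) y2.1 y2.2)

theorem three (hUN : S_UN) (h : Sys B E) (e : Bar) :
    {X : Cell B E | ∃ b, X.1.Cl (e.pt b)}.ncard ≤ 8 := by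
  have key : ∀ X : Cell B E, ∃ u : Bool × (Fin 2 → Bool), (∃ b, X.1.Cl (e.pt b)) →
      X.1.At (e.pt u.1) u.2 := fun X => by
    by_cases hX : ∃ b, X.1.Cl (e.pt b)
    · obtain ⟨b, hb⟩ := hX
      obtain ⟨ω, hω⟩ := hb.exists_at X.2.lt
      exact ⟨(b, ω), fun _ => hω⟩
    · exact ⟨(true, fun _ => true), fun h => (hX h).elim⟩
  choose f hf using key
  refine (Set.ncard_le_ncard_of_injOn (t := Set.univ) f (fun _ _ => Set.mem_univ _)
    fun X hX Y hY e1 => Subtype.ext ((hUN B E h).1 _ _ _ _ X.2 Y.2 (hf X hX)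
      (e1 ▸ hf Y hY))).trans ?_
  rw [Set.ncard_univ, Nat.card_eq_fintype_card]
  simp

end TCHA

theorem s_TCH (hUN : S_UN) (hEX : S_EX) (hJ3 : S_J3) : S_TCH := fun _ _ h =>
  ⟨TCHA.one hEX h, TCHA.two hJ3 h, TCHA.three hUN h⟩

end Pool.Agent.P.MP_5f84aa_co
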