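import Pool.Agent.P.MP_5f84aa_co.Defs

/-! Step TUT of the illumination project. -/

namespace Pool.Agent.P.MP_5f84aa_co

open Finset

namespace TUTA

variable {V J : Type} [Fintype J] [DecidableEq V] {c : J → Bool → V} {F : Finset V}

theorem inc_ge (h : MG c F) {K : Finset V} (hK : K.Nonempty) (hF : ∀ v ∈ K, v ∉ F) :
    2 * K.card + 2 ≤ (univ.filter fun j => c j true ∈ K ∨ c j false ∈ K).card := by
  classical
  have h1 : 4 * K.card ≤ ∑ v ∈ K, dg c v := by
    rw [mul_comm, ← smul_eq_mul]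
    exact card_nsmul_le_sum _ _ _ fun v hv => h.ge v (hF v hv)
  have h2 : ∑ v ∈ K, dg c v = (univ.filter fun x : J × Bool => c x.1 x.2 ∈ K).card := by
    rw [card_eq_sum_card_fiberwise (f := fun x : J × Bool => c x.1 x.2) (t := K)
      (s := univ.filter fun x : J × Bool => c x.1 x.2 ∈ K) fun x hx => (mem_filter.1 hx).2]
    refine sum_congr rfl fun v hv => ?_
    unfold dg
    congr 1
    ext x
    simp only [mem_filter, mem_univ, true_and]
    exact ⟨fun e => ⟨e ▸ hv, e⟩, fun e => e.2⟩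
  have h3 : (univ.filter fun x : J × Bool => c x.1 x.2 ∈ K).card =
      (univ.filter fun j => c j true ∈ K).card + (univ.filter fun j => c j false ∈ K).card := by
    simp only [card_filter, Fintype.sum_prod_type, Fintype.sum_bool, sum_add_distrib]
  have h4 := card_union_add_card_inter (univ.filter fun j => c j true ∈ K)
    (univ.filter fun j => c j false ∈ K)
  rw [← filter_or, ← filter_and] at h4
  have h5 := h.sp K hK
  omega

theorem count (h : MG c F) {ι : Type} (I : Finset ι) (K : ι → Finset V) (S A : Finset V)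
    (hA : A.card ≤ 1) (h1 : ∀ i ∈ I, (K i).Nonempty)
    (h2 : ∀ i ∈ I, ∀ v ∈ K i, v ∉ F ∧ v ∉ S ∧ v ∉ A)
    (h3 : ∀ i ∈ I, ∀ i' ∈ I, ∀ v ∈ K i, v ∈ K i' → i = i')
    (h4 : ∀ i ∈ I, ∀ j τ, c j τ ∈ K i → c j (!τ) ∈ K i ∨ c j (!τ) ∈ S ∨ c j (!τ) ∈ A) :
    I.card ≤ S.card := by
  classical
  rcases I.eq_empty_or_nonempty with rfl | ⟨i₀, hi₀⟩
  · simp
  have hY : (S ∪ A ∪ I.biUnion K).Nonempty := by
    obtain ⟨v, hv⟩ := h1 i₀ hi₀
    exact ⟨v, mem_union_right _ (mem_biUnion.2 ⟨i₀, hi₀, hv⟩)⟩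
  have e1 := h.sp _ hY
  have e2 : (S ∪ A ∪ I.biUnion K).card ≤ S.card + A.card + ∑ i ∈ I, (K i).card :=
    (card_union_le _ _).trans (add_le_add (card_union_le _ _) card_biUnion_le)
  have e3 : ∑ i ∈ I, (2 * (K i).card + 2) ≤
      ∑ i ∈ I, (univ.filter fun j => c j true ∈ K i ∨ c j false ∈ K i).card :=
    sum_le_sum fun i hi => inc_ge h (h1 i hi) fun v hv => (h2 i hi v hv).1
  have h5 : ∀ i ∈ I, ∀ i' ∈ I, ∀ j τ, c j τ ∈ K i → c j (!τ) ∈ K i' → i = i' := by
    intro i hi i' hi' j τ a b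
    rcases h4 i hi j τ a with d | d | d
    · exact h3 i hi i' hi' _ d b
    · exact absurd d (h2 i' hi' _ b).2.1
    · exact absurd d (h2 i' hi' _ b).2.2
  have h6 : ∀ i ∈ I, ∀ j τ, c j τ ∈ K i →
      c j τ ∈ S ∪ A ∪ I.biUnion K ∧ c j (!τ) ∈ S ∪ A ∪ I.biUnion K := by
    intro i hi j τ a
    refine ⟨mem_union_right _ (mem_biUnion.2 ⟨i, hi, a⟩), ?_⟩
    rcases h4 i hi j τ a with d | d | d
    · exact mem_union_right _ (mem_biUnion.2 ⟨i, hi, d⟩)
    · exact mem_union_left _ (mem_union_left _ d)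
    · exact mem_union_left _ (mem_union_right _ d)
  rw [← card_biUnion, sum_add_distrib, ← mul_sum, sum_const, smul_eq_mul] at e3
  · have e4 : (I.biUnion fun i => univ.filter fun j => c j true ∈ K i ∨ c j false ∈ K i) ⊆
        univ.filter fun j => c j true ∈ S ∪ A ∪ I.biUnion K ∧
          c j false ∈ S ∪ A ∪ I.biUnion K := fun j hj => by
      obtain ⟨i, hi, hj⟩ := mem_biUnion.1 hj
      refine mem_filter.2 ⟨mem_univ _, ?_⟩
      rcases (mem_filter.1 hj).2 with a | a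
      · exact h6 i hi j true a
      · exact (h6 i hi j false a).symm
    have := card_le_card e4
    omega
  · intro i hi i' hi' hne
    refine disjoint_left.2 fun j a b => hne ?_
    rcases (mem_filter.1 a).2 with a | a <;> rcases (mem_filter.1 b).2 with b | b
    · exact h3 i hi i' hi' _ a b
    · exact h5 i hi i' hi' j true a b
    · exact h5 i hi i' hi' j false a b
    · exact h3 i hi i' hi' _ a b

theorem tutte' {W : Type} [Finite W] (G : SimpleGraph W) (hW : Even (Nat.card W))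
    (h : ∀ S : Set W, ((⊤ : G.Subgraph).deleteVerts S).coe.oddComponents.ncard ≤ S.ncard + 1) :
    ∃ N : G.Subgraph, N.IsPerfectMatching := by
  refine SimpleGraph.tutte.2 fun S hS => ?_
  have h1 := h S
  have h2 := SimpleGraph.odd_ncard_oddComponents ((⊤ : G.Subgraph).deleteVerts S).coe
  have h3 : Nat.card ((⊤ : G.Subgraph).deleteVerts S).verts = Sᶜ.ncard := by
    rw [Nat.card_coe_set_eq]
    simp [Set.compl_eq_univ_sdiff]
  have h4 := Set.ncard_add_ncard_compl S
  unfold SimpleGraph.IsTutteViolator at hS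
  rw [h3] at h2
  simp only [Nat.odd_iff, Nat.even_iff] at h2 hW
  omega

omit [Fintype J] [DecidableEq V] in
theorem adj_symm {u v : V} (h : Adj c u v) : Adj c v u := by
  obtain ⟨j, τ, h1, h2⟩ := h
  exact ⟨j, !τ, h2, by simpa using h1⟩

/-- The auxiliary graph. -/
def aux (c : J → Bool → V) (F' : Finset V) (T : Finset (Option V)) : SimpleGraph T where
  Adj w w' := w ≠ w' ∧ (((∀ v, w.1 = some v → v ∈ F') ∧ ∀ v, w'.1 = some v → v ∈ F') ∨
    ∃ u v, w.1 = some u ∧ w'.1 = some v ∧ Adj c u v)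
  symm := ⟨fun _ _ h => ⟨h.1.symm, h.2.imp And.symm
    fun ⟨u, v, a, b, d⟩ => ⟨v, u, b, a, adj_symm d⟩⟩⟩
  loopless := ⟨fun _ h => h.1 rfl⟩

theorem perfect [Fintype V] (h : MG c F) {F' A : Finset V} (hF : F ⊆ F') (hA : A.card ≤ 1)
    {T : Finset (Option V)} (hT : Even T.card) (hT' : ∀ v, some v ∈ T ↔ v ∉ A) :
    ∃ N : (aux c F' T).Subgraph, N.IsPerfectMatching := by
  classical
  refine tutte' _ (by simpa using hT) fun S => ?_
  set H := ((⊤ : (aux c F' T).Subgraph).deleteVerts S).coe with hH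
  have hadj : ∀ x y, (aux c F' T).Adj x.1 y.1 → H.Adj x y := fun x y a =>
    ⟨x.2, y.2, a⟩
  let B : Set H.ConnectedComponent :=
    {C | ∀ x, H.connectedComponentMk x = C → ∃ v, x.1.1 = some v ∧ v ∉ F'}
  have hB : Bᶜ.ncard ≤ 1 := (Set.ncard_le_one (Set.toFinite _)).2 fun C hC C' hC' => by
    simp only [B, Set.mem_compl_iff, Set.mem_ofPred_eq, not_forall, not_exists, not_and,
      not_not] at hC hC'
    obtain ⟨x, rfl, hx⟩ := hC
    obtain ⟨y, rfl, hy⟩ := hC'
    by_cases e : x = y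
    · rw [e]
    · exact SimpleGraph.ConnectedComponent.connectedComponentMk_eq_of_adj
        (hadj x y ⟨fun e' => e (Subtype.ext e'), Or.inl ⟨hx, hy⟩⟩)
  let S' : Finset V := univ.filter fun v => ∃ w ∈ S, w.1 = some v
  have hS : S'.card ≤ S.ncard := by
    rw [← Set.ncard_coe_finset, ← Set.ncard_image_of_injective _ (Option.some_injective V),
      ← Set.ncard_image_of_injective S Subtype.val_injective]
    refine Set.ncard_le_ncard ?_ (Set.toFinite _)
    rintro _ ⟨v, hv, rfl⟩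
    exact (mem_filter.1 hv).2
  have hc := count h (Set.toFinite B).toFinset
    (fun C => univ.filter fun v => ∃ x, H.connectedComponentMk x = C ∧ x.1.1 = some v) S' A hA
    (fun C hC => ?_) (fun C hC v hv => ?_) (fun C _ C' _ v a b => ?_) (fun C hC j τ a => ?_)
  · rw [← Set.ncard_eq_toFinset_card] at hc
    have := Set.ncard_le_ncard (Set.subset_univ H.oddComponents) (Set.toFinite _)
    have h2 := Set.ncard_add_ncard_compl B
    rw [Set.ncard_univ] at this
    omega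
  · obtain ⟨x, hx⟩ := C.exists_rep
    obtain ⟨v, hv, -⟩ := (Set.Finite.mem_toFinset _).1 hC x hx
    exact ⟨v, mem_filter.2 ⟨mem_univ _, x, hx, hv⟩⟩
  · obtain ⟨x, hx, e⟩ := (mem_filter.1 hv).2
    obtain ⟨v', hv', h'⟩ := (Set.Finite.mem_toFinset _).1 hC x hx
    obtain rfl : v = v' := Option.some_injective _ (e.symm.trans hv')
    refine ⟨fun a => h' (hF a), fun a => ?_, (hT' v).1 (e ▸ x.1.2)⟩
    obtain ⟨w, hw, e'⟩ := (mem_filter.1 a).2
    exact x.2.2 ((Subtype.ext (e'.trans e.symm) : w = x.1) ▸ hw)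
  · obtain ⟨x, hx, e⟩ := (mem_filter.1 a).2
    obtain ⟨y, hy, e'⟩ := (mem_filter.1 b).2
    rw [← hx, ← hy, (Subtype.ext (Subtype.ext (e.trans e'.symm)) : x = y)]
  · obtain ⟨x, hx, e⟩ := (mem_filter.1 a).2
    by_cases h1 : c j (!τ) ∈ A
    · exact Or.inr (Or.inr h1)
    by_cases h2 : (⟨_, (hT' _).2 h1⟩ : T) ∈ S
    · exact Or.inr (Or.inl (mem_filter.2 ⟨mem_univ _, _, h2, rfl⟩))
    refine Or.inl (mem_filter.2 ⟨mem_univ _, ⟨⟨_, (hT' _).2 h1⟩, trivial, h2⟩, ?_, rfl⟩)
    rw [← hx]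
    refine (SimpleGraph.ConnectedComponent.connectedComponentMk_eq_of_adj
      (hadj _ _ ⟨fun e' => ?_, Or.inr ⟨_, _, e, rfl, j, τ, rfl, rfl⟩⟩)).symm
    have e2 : c j τ = c j (!τ) := Option.some_injective _ (e.symm.trans (congrArg Subtype.val e'))
    cases τ
    · exact h.ne j e2.symm
    · exact h.ne j e2

end TUTA

open TUTA in
theorem s_TUT : S_TUT := by
  classical
  intro V J _ _ _ c F F' A h hF hA
  obtain ⟨T, hT, hT'⟩ : ∃ T : Finset (Option V), Even T.card ∧ ∀ v, some v ∈ T ↔ v ∉ A := by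
    by_cases e : Even (univ \ A).card
    · exact ⟨(univ \ A).map Function.Embedding.some, by rwa [card_map], fun v => by simp⟩
    · exact ⟨insertNone (univ \ A), by rw [card_insertNone]; exact Nat.even_add_one.2 e,
        fun v => by simp⟩
  obtain ⟨N, hN⟩ := perfect h hF hA hT hT'
  rw [SimpleGraph.Subgraph.isPerfectMatching_iff] at hN
  let R : V → V → Prop := fun u v => ∃ a b, N.Adj ⟨some u, a⟩ ⟨some v, b⟩
  have hR : ∀ u v v', R u v → R u v' → v = v' := by
    rintro u v v' ⟨a, b, d⟩ ⟨_, b', d'⟩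
    exact Option.some_injective _ (congrArg Subtype.val ((hN _).unique d d'))
  have hM : ∀ j, R (c j true) (c j false) ↔ ∀ τ, R (c j τ) (c j (!τ)) := fun j =>
    ⟨fun ⟨a, b, d⟩ τ => by
      cases τ
      exacts [⟨b, a, d.symm⟩, ⟨a, b, d⟩], fun d => d true⟩
  have hf : ∀ j τ, s(c j true, c j false) = s(c j τ, c j (!τ)) := fun j τ => by
    cases τ
    exacts [Sym2.eq_swap, rfl]
  obtain ⟨M, h1, h2, h3⟩ := exists_subset_injOn_image_eq_of_surjOn
    (f := fun j => s(c j true, c j false)) {j | R (c j true) (c j false)}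
    ((univ.filter fun j => R (c j true) (c j false)).image fun j => s(c j true, c j false))
    fun z hz => by
      obtain ⟨j, hj, rfl⟩ := mem_image.1 hz
      exact ⟨j, (mem_filter.1 hj).2, rfl⟩
  refine ⟨M, fun j hj j' hj' τ τ' e => h2 hj hj' ?_, ?_, fun v hv hv' => ?_⟩
  · have e' := hR _ _ _ ((hM j).1 (h1 hj) τ) (e ▸ (hM j').1 (h1 hj') τ')
    simp only
    rw [hf j τ, hf j' τ', e, e']
  · rintro _ hv ⟨j, hj, τ, rfl⟩
    obtain ⟨a, -⟩ := (hM j).1 (h1 hj) τ
    exact (hT' _).1 a hv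
  · obtain ⟨w, hw, -⟩ := hN ⟨some v, (hT' v).2 hv'⟩
    rcases (N.adj_sub hw).2 with d | ⟨u, u', d1, d2, j, τ, d3, d4⟩
    · exact absurd (d.1 v rfl) hv
    obtain rfl : v = u := Option.some_injective _ d1
    obtain ⟨w, hw'⟩ := w
    subst d2 d3 d4
    have e : R (c j true) (c j false) := by
      cases τ
      exacts [⟨_, _, hw.symm⟩, ⟨_, _, hw⟩]
    have : s(c j true, c j false) ∈ M.image fun j => s(c j true, c j false) :=
      h3 ▸ mem_image_of_mem _ (mem_filter.2 ⟨mem_univ _, e⟩)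
    obtain ⟨j', hj', e'⟩ := mem_image.1 this
    have : c j τ ∈ s(c j' true, c j' false) := by
      rw [e', hf j τ]
      exact Sym2.mem_mk_left _ _
    rcases Sym2.mem_iff.1 this with d | d
    · exact ⟨j', hj', true, d.symm⟩
    · exact ⟨j', hj', false, d.symm⟩

end Pool.Agent.P.MP_5f84aa_co
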