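import Pool.Agent.P.MP_5f84aa_co.Defs

/-! Step UN of the illumination project. -/

namespace Pool.Agent.P.MP_5f84aa_co

open Finset

namespace UNA

variable {B : ℝ} {E : Finset Bar} {X Y : Box}

theorem cross (hX : IsCell B E X) (hY : IsCell B E Y) {p : Pt} (h1 : X.In p) (h2 : Y.In p)
    (k : Fin 2) (b : Bool) (h3 : Y.lo k < X.bd k b) (h4 : X.bd k b < Y.hi k) : False := by
  rcases hX.wall k b with h | h
  · have := hY.box k
    cases b <;> simp only [sg_true, sg_false] at h <;> linarith [this.1, this.2]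
  have e1 : Function.update p k (X.bd k b) k = X.bd k b := Function.update_self ..
  have e2 : Function.update p k (X.bd k b) k.rev = p k.rev := Function.update_of_ne (rev_ne k) ..
  obtain ⟨e, he, h5⟩ := h (Function.update p k (X.bd k b)) e1 (e2 ▸ (h1 _).1) (e2 ▸ (h1 _).2)
  refine hY.free _ ((forall_ax k).2 ⟨?_, ?_⟩) e he h5
  · rw [e1]; exact ⟨h3, h4⟩
  · rw [e2]; exact h2 _

theorem le (hX : IsCell B E X) (hY : IsCell B E Y) {p : Pt} (h1 : X.In p) (h2 : Y.In p)
    (k : Fin 2) : X.lo k ≤ Y.lo k ∧ Y.hi k ≤ X.hi k :=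
  ⟨not_lt.1 fun h => cross hX hY h1 h2 k false h ((h1 k).1.trans (h2 k).2),
    not_lt.1 fun h => cross hX hY h1 h2 k true ((h2 k).1.trans (h1 k).2) h⟩

theorem lam (hX : IsCell B E X) (k : Fin 2) (b : Bool) : Lam B E (X.bd k b) := by
  rcases hX.wall k b with h | h
  · cases b
    · exact Or.inr (Or.inl (by simpa using h))
    · exact Or.inl (by simpa using h)
  obtain ⟨s, hs, hs'⟩ := (Set.Ioo_infinite (hX.lt k.rev)).exists_notMem_finite (lam_finite B E)
  have e1 : (fun l => if l = k then X.bd k b else s : Pt) k = X.bd k b := if_pos rfl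
  have e2 : (fun l => if l = k then X.bd k b else s : Pt) k.rev = s := if_neg (rev_ne k)
  obtain ⟨e, he, h5, -⟩ := h (fun l => if l = k then X.bd k b else s) e1 (hs.1.trans_eq e2.symm)
    (e2.trans_lt hs.2)
  rcases eq_or_rev k e.ax with h6 | h6
  · rw [h6, e2] at h5
    exact absurd (Or.inr (Or.inr ⟨e, he, h5⟩)) hs'
  · rw [h6, Fin.rev_rev, e1] at h5
    exact Or.inr (Or.inr ⟨e, he, h5⟩)

theorem ext (h : ∀ k b, X.bd k b = Y.bd k b) : X = Y := by
  cases X
  cases Y
  congr 1
  exacts [funext fun k => h k false, funext fun k => h k true]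

end UNA

open UNA in
theorem s_UN : S_UN := by
  intro B E _
  refine ⟨fun X Y q ω hX hY h1 h2 => ?_, fun X hX => lam hX, ?_⟩
  · have key : ∀ k, ∃ s, (X.lo k < s ∧ s < X.hi k) ∧ Y.lo k < s ∧ s < Y.hi k := fun k => by
      have a := h1 k
      have b := h2 k
      have : max (X.lo k) (Y.lo k) < min (X.hi k) (Y.hi k) := by
        split_ifs at a b
        · exact (max_le a.1 b.1).trans_lt (lt_min a.2 b.2)
        · exact (max_lt a.1 b.1).trans_le (le_min a.2 b.2)
      obtain ⟨s, s1, s2⟩ := exists_between this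
      exact ⟨s, ⟨(max_lt_iff.1 s1).1, (lt_min_iff.1 s2).1⟩, (max_lt_iff.1 s1).2,
        (lt_min_iff.1 s2).2⟩
    choose p hp hp' using key
    refine ext fun k b => ?_
    have a := le hX hY hp hp' k
    have a' := le hY hX hp' hp k
    cases b
    exacts [a.1.antisymm a'.1, a'.2.antisymm a.2]
  · have := (lam_finite B E).to_subtype
    refine Finite.of_injective (β := Fin 2 → Bool → {x | Lam B E x})
      (fun X k b => ⟨X.1.bd k b, lam X.2 k b⟩) fun X Y h => Subtype.ext (ext fun k b => ?_)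
    exact congrArg Subtype.val (congrFun (congrFun h k) b)

end Pool.Agent.P.MP_5f84aa_co
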